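import Pool.Agent.Y854.ST.Approx
import Pool.Agent.H706R2.PT.S3

/-! Averages along the sequence and averages over all integers. -/

set_option autoImplicit false

open Finset Filter Topology

namespace Pool.Agent.Y854.ST

open Pool.Agent.Y854.PS

lemma Ioc_zero (n : ℕ) : Ioc 0 n = Icc 1 n := by
  ext x; simp only [mem_Ioc, mem_Icc]; omega

lemma sum_wt_up {c : ℝ} (hc : 1 < c) (y : ℕ) : ∑ t ∈ Ioc 0 y, wt c t ≤ (y : ℝ) ^ (1 / c) := by
  have hc0 : 0 < c := by linarith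
  rw [Ioc_zero]
  exact Pool.Agent.H706R2.PS.s3_sum_up (s := 1 / c) (by positivity) (by rw [div_lt_one hc0]; exact hc) y

lemma sum_wt_low {c : ℝ} (hc : 1 < c) (y : ℕ) : ((y : ℝ) + 1) ^ (1 / c) - 1 ≤ ∑ t ∈ Ioc 0 y, wt c t := by
  have hc0 : 0 < c := by linarith
  rw [Ioc_zero]
  exact Pool.Agent.H706R2.PS.s3_sum_low (s := 1 / c) (by positivity) (by rw [div_lt_one hc0]; exact hc) y

/-- total weight up to the `N`-th term -/
lemma wsum {α c : ℝ} (hα : 0 < α) (hc : 1 < c) (N : ℕ) :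
    (N : ℝ) - α ^ (-(1 / c)) ≤ α ^ (-(1 / c)) * ∑ t ∈ Ioc 0 (ms α c N), wt c t ∧
      α ^ (-(1 / c)) * ∑ t ∈ Ioc 0 (ms α c N), wt c t ≤ N := by
  have hc0 : 0 < c := by linarith
  set a := α ^ (-(1 / c)) with ha
  have ha0 : 0 < a := Real.rpow_pos_of_pos hα _
  have hx := xs_nonneg (c := c) hα N
  have e : a * (xs α c N) ^ (1 / c) = N := by
    unfold xs
    rw [Real.mul_rpow hα.le (by positivity), ← Real.rpow_mul (Nat.cast_nonneg N),
      mul_one_div_cancel hc0.ne', Real.rpow_one, ← mul_assoc, ha, ← Real.rpow_add hα]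
    simp
  have h1 := sum_wt_up hc (ms α c N)
  have h2 := sum_wt_low hc (ms α c N)
  have h3 : ((ms α c N : ℕ) : ℝ) ^ (1 / c) ≤ (xs α c N) ^ (1 / c) :=
    Real.rpow_le_rpow (Nat.cast_nonneg _) (Nat.floor_le hx) (by positivity)
  have h4 : (xs α c N) ^ (1 / c) ≤ (((ms α c N : ℕ) : ℝ) + 1) ^ (1 / c) :=
    Real.rpow_le_rpow hx (Nat.lt_floor_add_one _).le (by positivity)
  constructor
  · have h5 : a * ((xs α c N) ^ (1 / c) - 1) ≤ a * ∑ t ∈ Ioc 0 (ms α c N), wt c t :=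
      mul_le_mul_of_nonneg_left (by linarith) ha0.le
    rw [mul_sub, e, mul_one] at h5
    exact h5
  · calc a * ∑ t ∈ Ioc 0 (ms α c N), wt c t ≤ a * (xs α c N) ^ (1 / c) :=
          mul_le_mul_of_nonneg_left (h1.trans h3) ha0.le
      _ = N := e

/-- weighted sums of a function which is small from some point on -/
lemma small_sum {c : ℝ} (hc : 1 < c) (u : ℕ → ℝ) (η B : ℝ) (M0 : ℕ) (hη : 0 ≤ η) (hB : 0 ≤ B)
    (h1 : ∀ t, |u t| ≤ B) (h2 : ∀ t, M0 ≤ t → |u t| ≤ η) (M : ℕ) :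
    |∑ t ∈ Ioc 0 M, wt c t * u t| ≤ η * ∑ t ∈ Ioc 0 M, wt c t + B * ∑ t ∈ Ioc 0 M0, wt c t := by
  classical
  have h3 : ∀ t ∈ Ioc 0 M, |wt c t * u t| ≤ η * wt c t + B * (if t ≤ M0 then wt c t else 0) := by
    intro t _
    have hw := wt_nonneg hc t
    rw [abs_mul, abs_of_nonneg hw]
    split_ifs with h
    · have := mul_le_mul_of_nonneg_left (h1 t) hw
      nlinarith
    · have := mul_le_mul_of_nonneg_left (h2 t (by omega)) hw
      linarith
  refine (Finset.abs_sum_le_sum_abs _ _).trans ((Finset.sum_le_sum h3).trans ?_)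
  rw [Finset.sum_add_distrib, ← Finset.mul_sum, ← Finset.mul_sum, ← Finset.sum_filter]
  have h4 : ∑ t ∈ (Ioc 0 M).filter (fun t => t ≤ M0), wt c t ≤ ∑ t ∈ Ioc 0 M0, wt c t := by
    apply Finset.sum_le_sum_of_subset_of_nonneg
    · intro t ht
      rw [mem_filter, mem_Ioc] at ht
      rw [mem_Ioc]
      exact ⟨ht.1.1, ht.2⟩
    · intro t _ _
      exact wt_nonneg hc t
  have h5 := mul_le_mul_of_nonneg_left h4 hB
  linarith

/-- **The averages along the sequence and the weighted averages.** -/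
theorem law (k : ℕ) (α c κ : ℝ) (hα : 0 < α) (hc : 1 < c) (hκ : 0 < κ)
    (hS : SampR k (ms α c) c (α ^ (-(1 / c))) κ) (Φ : (Fin k → ℝ) → ℝ) (hΦ : UniformContinuous Φ)
    (Bd : ℝ) (hB : ∀ z, |Φ z| ≤ Bd)
    (θ : Fin k → ℝ) (hθ : ∀ l, 0 < θ l ∧ θ l ≤ 1) (δ : ℝ) (hδ : 0 < δ) : ∃ N0 : ℕ, ∀ N : ℕ, N0 ≤ N →
      |∑ n ∈ Icc 1 N, Fx Φ θ (xs α c n) - α ^ (-(1 / c)) * ∑ t ∈ Ioc 0 (ms α c N), wt c t * Fx Φ θ (t : ℝ)| ≤
        δ * N := by
  classical
  have hc0 : 0 < c := by linarith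
  have hBd : 0 ≤ Bd := (abs_nonneg _).trans (hB (fun _ => 0))
  set a := α ^ (-(1 / c)) with ha
  have ha0 : 0 < a := Real.rpow_pos_of_pos hα _
  obtain ⟨N1, h1⟩ := totalR k α c a κ hα hc ha0 hκ hS Φ Bd hB θ hθ (δ / 3) (by positivity)
  obtain ⟨M0, h2⟩ := approx3 hΦ θ hθ (δ / 6) (by positivity)
  have hms : Tendsto (fun n : ℕ => xs α c n) atTop atTop := by
    have h1 : Tendsto (fun n : ℕ => (n : ℝ) ^ c) atTop atTop :=
      (tendsto_rpow_atTop hc0).comp tendsto_natCast_atTop_atTop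
    exact h1.const_mul_atTop hα
  obtain ⟨n0, hn0⟩ := (hms.eventually (eventually_ge_atTop (M0 : ℝ))).exists_forall_of_atTop
  set W0 : ℝ := a * (2 * Bd * ∑ t ∈ Ioc 0 M0, wt c t) with hW0
  obtain ⟨N2, hN2⟩ := exists_nat_ge ((2 * Bd * n0 + W0) / (δ / 3))
  refine ⟨max N1 N2, fun N hN => ?_⟩
  have e1 := h1 N ((le_max_left _ _).trans hN)
  have e2 : (2 * Bd * n0 + W0) / (δ / 3) ≤ N := hN2.trans (by exact_mod_cast (le_max_right _ _).trans hN)
  rw [div_le_iff₀ (by positivity)] at e2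
  -- the sum over `n`
  have hb : ∀ x m, |Fx Φ θ x - Pw Φ θ m| ≤ 2 * Bd := by
    intro x m
    have h3 : |Fx Φ θ x| ≤ Bd := hB _
    have h4 := Pw_le hB θ m
    refine (abs_sub _ _).trans ?_
    linarith
  have e3 : |∑ n ∈ Icc 1 N, (Fx Φ θ (xs α c n) - Pw Φ θ (ms α c n))| ≤ (δ / 6) * N + 2 * Bd * n0 := by
    have h3 : ∀ n ∈ Icc 1 N, |Fx Φ θ (xs α c n) - Pw Φ θ (ms α c n)| ≤ δ / 6 +
        (if n < n0 then 2 * Bd else 0) := by
      intro n _
      split_ifs with h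
      · have := hb (xs α c n) (ms α c n)
        linarith
      · rw [add_zero]
        have h4 := hn0 n (by omega)
        exact h2 (ms α c n) (xs α c n) (Nat.le_floor h4) (Nat.floor_le (xs_nonneg hα n))
          (Nat.lt_floor_add_one _)
    refine (Finset.abs_sum_le_sum_abs _ _).trans ((Finset.sum_le_sum h3).trans ?_)
    rw [Finset.sum_add_distrib, sum_const, Nat.card_Icc, nsmul_eq_mul, Nat.add_sub_cancel,
      ← Finset.sum_filter, sum_const, nsmul_eq_mul]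
    have h4 : ((Icc 1 N).filter (fun n => n < n0)).card ≤ n0 := by
      have h5 : (Icc 1 N).filter (fun n => n < n0) ⊆ range n0 := by
        intro n hn
        rw [mem_filter] at hn
        rw [mem_range]
        exact hn.2
      have := Finset.card_le_card h5
      rwa [card_range] at this
    have h5 : (((Icc 1 N).filter (fun n => n < n0)).card : ℝ) ≤ n0 := by exact_mod_cast h4
    have h6 := mul_le_mul_of_nonneg_right h5 (show 0 ≤ 2 * Bd by positivity)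
    linarith
  -- the weighted sum
  have e4 : |a * ∑ t ∈ Ioc 0 (ms α c N), wt c t * (Fx Φ θ (t : ℝ) - Pw Φ θ t)| ≤ (δ / 6) * N + W0 := by
    have h3 := small_sum hc (fun t : ℕ => Fx Φ θ (t : ℝ) - Pw Φ θ t) (δ / 6) (2 * Bd) M0 (by positivity)
      (by positivity) (fun t => hb _ _) (fun t ht => h2 t t ht le_rfl (by linarith)) (ms α c N)
    rw [abs_mul, abs_of_pos ha0]
    refine (mul_le_mul_of_nonneg_left h3 ha0.le).trans ?_
    have h4 := (wsum hα hc N).2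
    rw [← ha] at h4
    have h5 : a * (δ / 6 * ∑ t ∈ Ioc 0 (ms α c N), wt c t) ≤ (δ / 6) * N := by
      calc a * (δ / 6 * ∑ t ∈ Ioc 0 (ms α c N), wt c t) = (δ / 6) * (a * ∑ t ∈ Ioc 0 (ms α c N), wt c t) := by ring
        _ ≤ (δ / 6) * N := mul_le_mul_of_nonneg_left h4 (by positivity)
    rw [mul_add]
    exact add_le_add h5 le_rfl
  have e5 : ∑ n ∈ Icc 1 N, Fx Φ θ (xs α c n) - a * ∑ t ∈ Ioc 0 (ms α c N), wt c t * Fx Φ θ (t : ℝ) =
      ∑ n ∈ Icc 1 N, (Fx Φ θ (xs α c n) - Pw Φ θ (ms α c n)) +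
      (∑ n ∈ Icc 1 N, Pw Φ θ (ms α c n) - a * ∑ t ∈ Ioc 0 (ms α c N), wt c t * Pw Φ θ t) -
      a * ∑ t ∈ Ioc 0 (ms α c N), wt c t * (Fx Φ θ (t : ℝ) - Pw Φ θ t) := by
    have h3 : ∑ t ∈ Ioc 0 (ms α c N), wt c t * (Fx Φ θ (t : ℝ) - Pw Φ θ t) =
        ∑ t ∈ Ioc 0 (ms α c N), wt c t * Fx Φ θ (t : ℝ) - ∑ t ∈ Ioc 0 (ms α c N), wt c t * Pw Φ θ t := by
      rw [← Finset.sum_sub_distrib]
      apply Finset.sum_congr rfl
      intro t _
      ring
    rw [h3, Finset.sum_sub_distrib]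
    ring
  rw [e5]
  set A1 := ∑ n ∈ Icc 1 N, (Fx Φ θ (xs α c n) - Pw Φ θ (ms α c n)) with hA1
  set A2 := ∑ n ∈ Icc 1 N, Pw Φ θ (ms α c n) - a * ∑ t ∈ Ioc 0 (ms α c N), wt c t * Pw Φ θ t with hA2
  set A3 := a * ∑ t ∈ Ioc 0 (ms α c N), wt c t * (Fx Φ θ (t : ℝ) - Pw Φ θ t) with hA3
  have t1 := abs_sub (A1 + A2) A3
  have t2 := abs_add_le A1 A2
  linarith

/-- Abel summation with increasing weights -/
lemma abel_incr (d w : ℕ → ℝ) (B : ℝ) (v : ℕ) (hv : 1 ≤ v) (hB : 0 ≤ B)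
    (hw0 : ∀ m, 1 ≤ m → 0 ≤ w m) (hw : ∀ m, 1 ≤ m → w m ≤ w (m + 1))
    (hS : ∀ t, t ≤ v → |∑ m ∈ Ioc 0 t, d m| ≤ B) : |∑ m ∈ Ioc 0 v, d m * w m| ≤ 2 * B * w v := by
  have key : ∀ t, 1 ≤ t → t ≤ v →
      |∑ m ∈ Ioc 0 t, d m * w m - (∑ m ∈ Ioc 0 t, d m) * w t| ≤ B * (w t - w 1) := by
    intro t ht
    induction t, ht using Nat.le_induction with
    | base => intro _; simp
    | succ t ht ih =>
      intro htv
      have h1 := ih (by omega)
      rw [← Finset.insert_Ioc_right_eq_Ioc_add_one (Nat.zero_le t), Finset.sum_insert (by simp),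
        Finset.sum_insert (by simp)]
      have h2 := hw t ht
      have h3 := hS t (by omega)
      have e2 : d (t + 1) * w (t + 1) + ∑ m ∈ Ioc 0 t, d m * w m -
          (d (t + 1) + ∑ m ∈ Ioc 0 t, d m) * w (t + 1) =
          (∑ m ∈ Ioc 0 t, d m * w m - (∑ m ∈ Ioc 0 t, d m) * w t) -
            (∑ m ∈ Ioc 0 t, d m) * (w (t + 1) - w t) := by ring
      rw [e2]
      refine (abs_sub _ _).trans ?_
      rw [abs_mul (∑ m ∈ Ioc 0 t, d m), abs_of_nonneg (by linarith : 0 ≤ w (t + 1) - w t)]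
      have h4 : |∑ m ∈ Ioc 0 t, d m| * (w (t + 1) - w t) ≤ B * (w (t + 1) - w t) :=
        mul_le_mul_of_nonneg_right h3 (by linarith)
      linarith
  have h1 := key v hv le_rfl
  have h2 := hS v le_rfl
  have h3 := hw0 v hv
  have h0 := hw0 1 le_rfl
  have e : ∑ m ∈ Ioc 0 v, d m * w m = (∑ m ∈ Ioc 0 v, d m * w m - (∑ m ∈ Ioc 0 v, d m) * w v) +
      (∑ m ∈ Ioc 0 v, d m) * w v := by ring
  rw [e]
  refine (abs_add_le _ _).trans ?_
  rw [abs_mul (∑ m ∈ Ioc 0 v, d m), abs_of_nonneg h3]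
  have h4 : |∑ m ∈ Ioc 0 v, d m| * w v ≤ B * w v := mul_le_mul_of_nonneg_right h2 h3
  have h5 : 0 ≤ B * w 1 := mul_nonneg hB h0
  linarith

end Pool.Agent.Y854.ST
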