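import Pool.Agent.Y854.ST.Tot

/-! The rounded densities on the grid are close to the densities. -/

set_option autoImplicit false

open Finset Filter

namespace Pool.Agent.Y854.ST

open Pool.Agent.Y854.PS

lemma sq_le_two_pow (i : ℕ) (hi : 6 ≤ i) : (i + 1) ^ 2 ≤ 2 ^ i := by
  induction i, hi using Nat.le_induction with
  | base => norm_num
  | succ i hi ih =>
    rw [pow_succ 2 i]
    nlinarith

lemma pcn_add (m a b : ℕ) : pcn m (a + b) ≤ pcn m a + b := by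
  unfold pcn
  have h : (Ioc m (m + (a + b))).filter Nat.Prime ⊆ (Ioc m (m + a)).filter Nat.Prime ∪ Ioc (m + a) (m + a + b) := by
    intro p hp
    rw [mem_filter, mem_Ioc] at hp
    rw [mem_union, mem_filter, mem_Ioc, mem_Ioc]
    by_cases h : p ≤ m + a
    · exact Or.inl ⟨⟨hp.1.1, h⟩, hp.2⟩
    · exact Or.inr (by omega)
  have h2 := (Finset.card_le_card h).trans (Finset.card_union_le _ _)
  rw [Nat.card_Ioc] at h2
  omega

lemma hf_succ (i j : ℕ) : hf i (j + 1) = hf i j * (2 : ℝ) ^ (1 / ((i : ℝ) + 1) ^ 2) := by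
  unfold hf
  rw [← Real.rpow_add (by norm_num)]
  congr 1
  push_cast
  ring

lemma two_rpow_le2 (i : ℕ) : (2 : ℝ) ^ (1 / ((i : ℝ) + 1) ^ 2) ≤ 1 + 1 / ((i : ℝ) + 1) ^ 2 := by
  have h0 : 0 ≤ 1 / ((i : ℝ) + 1) ^ 2 := by positivity
  have h1 : 1 / ((i : ℝ) + 1) ^ 2 ≤ 1 := by
    rw [div_le_one (by positivity)]
    have : (1 : ℝ) ≤ (i : ℝ) + 1 := by linarith [Nat.cast_nonneg (α := ℝ) i]
    nlinarith
  have h := rpow_one_add_le_one_add_mul_self (s := 1) (by norm_num) h0 h1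
  rw [show (1 : ℝ) + 1 = 2 by norm_num, mul_one] at h
  exact h

lemma hf_jf_le {i : ℕ} {H : ℝ} (hH : 1 ≤ H) : hf i (jf i H) ≤ H := by
  unfold hf
  rw [← Real.le_logb_iff_rpow_le (by norm_num) (by linarith)]
  have hi : (0 : ℝ) < ((i : ℝ) + 1) ^ 2 := by positivity
  rw [div_le_iff₀ hi, mul_comm]
  exact Nat.floor_le (mul_nonneg hi.le (logb_nonneg' hH))

lemma lt_hf_jf {i : ℕ} {H : ℝ} (hH : 1 ≤ H) : H < hf i (jf i H + 1) := by
  unfold hf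
  rw [← Real.logb_lt_iff_lt_rpow (by norm_num) (by linarith)]
  have hi : (0 : ℝ) < ((i : ℝ) + 1) ^ 2 := by positivity
  rw [lt_div_iff₀ hi, mul_comm]
  push_cast
  exact Nat.lt_floor_add_one _

/-- the density at `x` and the density on the grid -/
lemma approx0 {θ x : ℝ} {i m : ℕ} (hθ0 : 0 < θ) (hθ1 : θ ≤ 1) (hi : 6 ≤ i) (hm1 : 2 ^ i < m)
    (hm2 : m ≤ 2 ^ (i + 1)) (hx1 : (m : ℝ) ≤ x) (hx2 : x < m + 1) :
    |ff x (x ^ θ) - Gd i (jf i ((m : ℝ) ^ θ)) m| ≤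
      4 * ((i : ℝ) + 2) / ((i : ℝ) + 1) ^ 2 + 4 * ((i : ℝ) + 2) / ((2 : ℝ) ^ i) ^ θ := by
  have hi0 : (0 : ℝ) ≤ i := Nat.cast_nonneg i
  have hsq : ((i : ℝ) + 1) ^ 2 ≤ (2 : ℝ) ^ i := by exact_mod_cast sq_le_two_pow i hi
  have h2i : (64 : ℝ) ≤ (2 : ℝ) ^ i := by
    calc (64 : ℝ) = 2 ^ 6 := by norm_num
      _ ≤ 2 ^ i := pow_le_pow_right₀ (by norm_num) hi
  have hmr : (2 : ℝ) ^ i < m := by exact_mod_cast hm1
  have hmpos : (0 : ℝ) < m := by linarith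
  have hm1' : (1 : ℝ) ≤ m := by linarith
  have hxpos : 0 < x := by linarith
  have hfl : ⌊x⌋₊ = m := by
    rw [Nat.floor_eq_iff hxpos.le]
    exact ⟨hx1, hx2⟩
  set Hm : ℝ := (m : ℝ) ^ θ with hHm
  set Hx : ℝ := x ^ θ with hHx
  have hHm1 : 1 ≤ Hm := Real.one_le_rpow hm1' hθ0.le
  set j := jf i Hm with hj
  set h : ℝ := hf i j with hh
  have hh0 : 0 < h := hf_pos i j
  have a1 : h ≤ Hm := hf_jf_le hHm1
  have a2 : Hm < h * (2 : ℝ) ^ (1 / ((i : ℝ) + 1) ^ 2) := by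
    rw [hh, ← hf_succ]
    exact lt_hf_jf hHm1
  set e : ℝ := 1 / ((i : ℝ) + 1) ^ 2 with he
  have he0 : 0 < e := by positivity
  have he1 : e ≤ 1 := by
    rw [he, div_le_one (by positivity)]
    nlinarith
  have a3 : Hm ≤ h * (1 + e) := a2.le.trans (mul_le_mul_of_nonneg_left (two_rpow_le2 i) hh0.le)
  have hme : 1 / (m : ℝ) ≤ e := by
    rw [he]
    apply one_div_le_one_div_of_le (by positivity)
    linarith
  have b1 : Hm ≤ Hx := Real.rpow_le_rpow hmpos.le hx1 hθ0.le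
  have b2 : Hx ≤ Hm * (1 + e) := by
    have h1 : Hx ≤ ((m : ℝ) * (1 + 1 / m)) ^ θ := by
      apply Real.rpow_le_rpow hxpos.le _ hθ0.le
      have : (m : ℝ) * (1 + 1 / m) = m + 1 := by field_simp
      rw [this]
      exact hx2.le
    rw [Real.mul_rpow hmpos.le (by positivity)] at h1
    have h2 : (1 + 1 / (m : ℝ)) ^ θ ≤ 1 + 1 / (m : ℝ) := by
      calc (1 + 1 / (m : ℝ)) ^ θ ≤ (1 + 1 / (m : ℝ)) ^ (1 : ℝ) := by
            apply Real.rpow_le_rpow_of_exponent_le _ hθ1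
            have : 0 < 1 / (m : ℝ) := by positivity
            linarith
        _ = _ := Real.rpow_one _
    calc Hx ≤ Hm * (1 + 1 / (m : ℝ)) ^ θ := h1
      _ ≤ Hm * (1 + e) := mul_le_mul_of_nonneg_left (h2.trans (by linarith)) (by linarith)
  have b3 : Hx ≤ h * (1 + 3 * e) := by
    calc Hx ≤ Hm * (1 + e) := b2
      _ ≤ (h * (1 + e)) * (1 + e) := mul_le_mul_of_nonneg_right a3 (by linarith)
      _ = h * ((1 + e) * (1 + e)) := by ring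
      _ ≤ h * (1 + 3 * e) := by
          apply mul_le_mul_of_nonneg_left _ hh0.le
          nlinarith
  have hHx0 : 0 < Hx := by linarith
  have hhH : h ≤ Hx := a1.trans b1
  have f1 := Nat.floor_le hh0.le
  have f2 := Nat.lt_floor_add_one h
  -- logarithms
  have hlm := log_le_of_le hm2
  have hlogm : 0 ≤ Real.log m := Real.log_nonneg hm1'
  have l1 : Real.log m ≤ Real.log x := Real.log_le_log hmpos hx1
  have l2 : Real.log x ≤ Real.log m + 1 / m := by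
    have h3 : Real.log x ≤ Real.log ((m : ℝ) * (1 + 1 / m)) := by
      apply Real.log_le_log hxpos
      have : (m : ℝ) * (1 + 1 / m) = m + 1 := by field_simp
      rw [this]
      exact hx2.le
    rw [Real.log_mul hmpos.ne' (by positivity)] at h3
    have h4 := Real.log_le_sub_one_of_pos (show 0 < 1 + 1 / (m : ℝ) by positivity)
    linarith
  have l3 : Real.log x ≤ i + 2 := by linarith
  -- the counts
  have p1 : (pcn m ⌊h⌋₊ : ℝ) ≤ pr x Hx := by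
    have := pcn_le_pr (x := x) (H := Hx) (h := ⌊h⌋₊) hxpos.le (f1.trans hhH)
    rwa [hfl] at this
  have p2 : pr x Hx ≤ pcn m ⌊h⌋₊ + (3 * e * h + 2) := by
    have h1 := pr_le_pcn (x := x) (H := Hx) (H' := Hx) hxpos.le hHx0.le le_rfl
    rw [hfl] at h1
    have h2 : ⌊h⌋₊ ≤ ⌊Hx⌋₊ := Nat.floor_le_floor hhH
    have h3 : pcn m (⌊Hx⌋₊ + 1) ≤ pcn m ⌊h⌋₊ + (⌊Hx⌋₊ + 1 - ⌊h⌋₊) := by
      have := pcn_add m ⌊h⌋₊ (⌊Hx⌋₊ + 1 - ⌊h⌋₊)
      rwa [show ⌊h⌋₊ + (⌊Hx⌋₊ + 1 - ⌊h⌋₊) = ⌊Hx⌋₊ + 1 by omega] at this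
    have h4 : (pcn m (⌊Hx⌋₊ + 1) : ℝ) ≤ pcn m ⌊h⌋₊ + ((⌊Hx⌋₊ : ℝ) + 1 - ⌊h⌋₊) := by
      have h5 : ((⌊Hx⌋₊ + 1 - ⌊h⌋₊ : ℕ) : ℝ) = (⌊Hx⌋₊ : ℝ) + 1 - ⌊h⌋₊ := by
        rw [Nat.cast_sub (by omega)]
        push_cast
        ring
      rw [← h5]
      exact_mod_cast h3
    have h6 := Nat.floor_le hHx0.le
    linarith
  have p3 : (pcn m ⌊h⌋₊ : ℝ) ≤ h := by
    have : (pcn m ⌊h⌋₊ : ℝ) ≤ (⌊h⌋₊ : ℝ) := by exact_mod_cast pcn_le m _
    linarith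
  have p0 : (0 : ℝ) ≤ pcn m ⌊h⌋₊ := Nat.cast_nonneg _
  set p : ℝ := (pcn m ⌊h⌋₊ : ℝ) with hp
  have hG : Gd i j m = p * Real.log m / h := rfl
  have hGle : p * Real.log m / h ≤ i + 1 := by rw [← hG]; exact (Gd_le i j m).trans hlm
  have hG0 : 0 ≤ p * Real.log m / h := by positivity
  -- lower bound for `h`
  have hhlow : ((2 : ℝ) ^ i) ^ θ ≤ 2 * h := by
    have h1 : ((2 : ℝ) ^ i) ^ θ ≤ Hm := Real.rpow_le_rpow (by positivity) hmr.le hθ0.le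
    nlinarith
  have h2h : 2 * ((i : ℝ) + 2) / h ≤ 4 * ((i : ℝ) + 2) / ((2 : ℝ) ^ i) ^ θ := by
    rw [div_le_div_iff₀ hh0 (by positivity)]
    have h1 : 0 ≤ 2 * ((i : ℝ) + 2) := by positivity
    calc 2 * ((i : ℝ) + 2) * ((2 : ℝ) ^ i) ^ θ ≤ 2 * ((i : ℝ) + 2) * (2 * h) :=
          mul_le_mul_of_nonneg_left hhlow h1
      _ = 4 * ((i : ℝ) + 2) * h := by ring
  have e4 : 4 * ((i : ℝ) + 2) / ((i : ℝ) + 1) ^ 2 = 4 * e * ((i : ℝ) + 2) := by
    rw [he]; ring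
  have hq0 : 0 ≤ 4 * ((i : ℝ) + 2) / ((2 : ℝ) ^ i) ^ θ := by positivity
  rw [hG, e4]
  unfold ff
  rw [abs_le]
  constructor
  · -- lower bound
    have h1 : p * Real.log m / (h * (1 + 3 * e)) ≤ pr x Hx * Real.log x / Hx := by
      apply div_le_div₀ (mul_nonneg (pr_nonneg _ _) (by linarith)) _ hHx0 b3
      exact mul_le_mul p1 l1 hlogm (pr_nonneg _ _)
    have h2 : p * Real.log m / (h * (1 + 3 * e)) = (p * Real.log m / h) / (1 + 3 * e) := by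
      rw [div_div]
    have h3 : (p * Real.log m / h) * (1 - 3 * e) ≤ (p * Real.log m / h) / (1 + 3 * e) := by
      rw [le_div_iff₀ (by positivity)]
      have : (1 - 3 * e) * (1 + 3 * e) ≤ 1 := by nlinarith
      calc (p * Real.log m / h) * (1 - 3 * e) * (1 + 3 * e) = (p * Real.log m / h) * ((1 - 3 * e) * (1 + 3 * e)) := by ring
        _ ≤ (p * Real.log m / h) * 1 := mul_le_mul_of_nonneg_left this hG0
        _ = _ := mul_one _
    have h4 : (p * Real.log m / h) * (3 * e) ≤ 4 * e * ((i : ℝ) + 2) := by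
      calc (p * Real.log m / h) * (3 * e) ≤ ((i : ℝ) + 1) * (3 * e) := mul_le_mul_of_nonneg_right hGle (by positivity)
        _ ≤ 4 * e * ((i : ℝ) + 2) := by nlinarith
    linarith
  · -- upper bound
    have h1 : pr x Hx * Real.log x / Hx ≤ (p + (3 * e * h + 2)) * Real.log x / h := by
      apply div_le_div₀ (mul_nonneg (by positivity) (by linarith)) _ hh0 hhH
      exact mul_le_mul_of_nonneg_right p2 (by linarith)
    have h2 : (p + (3 * e * h + 2)) * Real.log x / h = p * Real.log x / h + 3 * e * Real.log x + 2 * Real.log x / h := by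
      field_simp
      ring
    have h3 : p * Real.log x / h ≤ p * Real.log m / h + e := by
      have h5 : p * Real.log x / h ≤ p * (Real.log m + 1 / m) / h := by
        apply div_le_div_of_nonneg_right _ hh0.le
        exact mul_le_mul_of_nonneg_left l2 p0
      have h6 : p * (Real.log m + 1 / m) / h = p * Real.log m / h + (p / h) * (1 / m) := by ring
      have h7 : (p / h) * (1 / m) ≤ 1 * e := by
        apply mul_le_mul _ hme (by positivity) (by norm_num)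
        rw [div_le_one hh0]
        exact p3
      linarith
    have h4 : 3 * e * Real.log x ≤ 3 * e * ((i : ℝ) + 2) := mul_le_mul_of_nonneg_left l3 (by positivity)
    have h5 : 2 * Real.log x / h ≤ 2 * ((i : ℝ) + 2) / h := by
      apply div_le_div_of_nonneg_right _ hh0.le
      linarith
    have h6 : e ≤ e * ((i : ℝ) + 2) := by nlinarith
    linarith

/-- the density at `x` and the rounded density on the grid -/
lemma approx1 {θ η : ℝ} (hθ0 : 0 < θ) (hθ1 : θ ≤ 1) (hη : 0 < η) : ∃ i0 : ℕ, ∀ i m : ℕ, i0 ≤ i →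
    2 ^ i < m → m ≤ 2 ^ (i + 1) → ∀ x : ℝ, (m : ℝ) ≤ x → x < m + 1 →
      |ff x (x ^ θ) - ((⌊((i : ℝ) + 2) * Gd i (jf i ((m : ℝ) ^ θ)) m⌋₊ : ℕ) : ℝ) / ((i : ℝ) + 2)| ≤ η := by
  obtain ⟨i1, hi1⟩ := (poly_growth 2 θ hθ0).exists_forall_of_atTop
  obtain ⟨i2, hi2⟩ := exists_nat_ge (16 / η)
  refine ⟨max (max i1 i2) 6, fun i m hi hm1 hm2 x hx1 hx2 => ?_⟩
  have hii1 : i1 ≤ i := ((le_max_left _ _).trans (le_max_left _ _)).trans hi
  have hii2 : i2 ≤ i := ((le_max_right _ _).trans (le_max_left _ _)).trans hi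
  have hi6 : 6 ≤ i := (le_max_right _ _).trans hi
  have h0 := approx0 hθ0 hθ1 hi6 hm1 hm2 hx1 hx2
  set g := Gd i (jf i ((m : ℝ) ^ θ)) m with hg
  have hg0 : 0 ≤ g := Gd_nonneg _ _ _
  have hi0 : (0 : ℝ) ≤ i := Nat.cast_nonneg i
  have hip : (0 : ℝ) < (i : ℝ) + 2 := by positivity
  have f1 := Nat.floor_le (mul_nonneg hip.le hg0)
  have f2 := Nat.lt_floor_add_one (((i : ℝ) + 2) * g)
  have h1 : |g - ((⌊((i : ℝ) + 2) * g⌋₊ : ℕ) : ℝ) / ((i : ℝ) + 2)| ≤ 1 / ((i : ℝ) + 1) := by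
    have e1 : g - ((⌊((i : ℝ) + 2) * g⌋₊ : ℕ) : ℝ) / ((i : ℝ) + 2) =
        (((i : ℝ) + 2) * g - ((⌊((i : ℝ) + 2) * g⌋₊ : ℕ) : ℝ)) / ((i : ℝ) + 2) := by field_simp
    rw [e1, abs_of_nonneg (div_nonneg (by linarith) hip.le)]
    apply div_le_div₀ (by norm_num) (by linarith) (by positivity) (by linarith)
  have h2 : 4 * ((i : ℝ) + 2) / ((i : ℝ) + 1) ^ 2 ≤ 8 / ((i : ℝ) + 1) := by
    rw [div_le_div_iff₀ (by positivity) (by positivity)]
    nlinarith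
  have h3 : 4 * ((i : ℝ) + 2) / ((2 : ℝ) ^ i) ^ θ ≤ 4 / ((i : ℝ) + 1) := by
    have h4 := hi1 i hii1
    have h5 : 4 * ((i : ℝ) + 2) / ((2 : ℝ) ^ i) ^ θ ≤ 4 * ((i : ℝ) + 2) / ((i : ℝ) + 2) ^ 2 :=
      div_le_div_of_nonneg_left (by positivity) (by positivity) h4
    refine h5.trans ?_
    rw [div_le_div_iff₀ (by positivity) (by positivity)]
    nlinarith
  have h4 : 13 / ((i : ℝ) + 1) ≤ η := by
    have h5 : 16 / η ≤ i := hi2.trans (by exact_mod_cast hii2)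
    rw [div_le_iff₀ hη] at h5
    rw [div_le_iff₀ (by positivity)]
    nlinarith
  have h5 := abs_sub_le (ff x (x ^ θ)) g (((⌊((i : ℝ) + 2) * g⌋₊ : ℕ) : ℝ) / ((i : ℝ) + 2))
  have e2 : 8 / ((i : ℝ) + 1) + 4 / ((i : ℝ) + 1) + 1 / ((i : ℝ) + 1) = 13 / ((i : ℝ) + 1) := by ring
  linarith

/-- the function of the densities -/
noncomputable def Fx {k : ℕ} (Φ : (Fin k → ℝ) → ℝ) (θ : Fin k → ℝ) (x : ℝ) : ℝ :=
  Φ (fun l => ff x (x ^ (θ l)))

/-- the function of the densities and of the rounded densities -/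
lemma approx3 {k : ℕ} {Φ : (Fin k → ℝ) → ℝ} (hΦ : UniformContinuous Φ) (θ : Fin k → ℝ)
    (hθ : ∀ l, 0 < θ l ∧ θ l ≤ 1) (δ : ℝ) (hδ : 0 < δ) : ∃ M0 : ℕ, ∀ (m : ℕ) (x : ℝ), M0 ≤ m →
      (m : ℝ) ≤ x → x < m + 1 → |Fx Φ θ x - Pw Φ θ m| ≤ δ := by
  rw [Metric.uniformContinuous_iff] at hΦ
  obtain ⟨η, hη, h⟩ := hΦ δ hδ
  have h1 : ∀ l : Fin k, ∃ i0 : ℕ, ∀ i m : ℕ, i0 ≤ i →
      2 ^ i < m → m ≤ 2 ^ (i + 1) → ∀ x : ℝ, (m : ℝ) ≤ x → x < m + 1 →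
      |ff x (x ^ (θ l)) - ((⌊((i : ℝ) + 2) * Gd i (jf i ((m : ℝ) ^ (θ l))) m⌋₊ : ℕ) : ℝ) / ((i : ℝ) + 2)| ≤ η / 2 :=
    fun l => approx1 (hθ l).1 (hθ l).2 (half_pos hη)
  choose i0 hi0 using h1
  refine ⟨2 ^ (Finset.univ.sup i0) + 2, fun m x hm hx1 hx2 => ?_⟩
  have hm2 : 2 ≤ m := (Nat.le_add_left 2 _).trans hm
  obtain ⟨hs1, hs2⟩ := (sc_iff hm2 (i := sc m)).mp rfl
  have hsup : Finset.univ.sup i0 ≤ sc m := by
    unfold sc
    apply Nat.le_log_of_pow_le (by norm_num)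
    omega
  have h2 : dist (fun l => ff x (x ^ (θ l))) (fun l => ((rv (sc m) (Jv (sc m) θ m) m l : ℕ) : ℝ) / ((sc m : ℝ) + 2)) < η := by
    refine lt_of_le_of_lt ?_ (half_lt_self hη)
    rw [dist_pi_le_iff (half_pos hη).le]
    intro l
    rw [Real.dist_eq]
    exact hi0 l (sc m) m ((Finset.le_sup (Finset.mem_univ l)).trans hsup) hs1 hs2 x hx1 hx2
  have h3 := h h2
  rw [Real.dist_eq] at h3
  exact h3.le

end Pool.Agent.Y854.ST
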