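import Pool.Agent.Y854.ST.Defs

/-! Sampling of the rounded densities, one block. -/

set_option autoImplicit false

open Finset Filter

namespace Pool.Agent.Y854.ST

open Pool.Agent.Y854.PS
open Pool.Agent.H706R2.PS.A13aux

/-- index set of the family -/
def TT (k i : ℕ) : Finset ((Fin k → ℕ) × (Fin k → ℕ)) := TJ k i ×ˢ TR k i

/-- the family of sets -/
noncomputable def AT (k i n : ℕ) : Set ℕ :=
  {m : ℕ | rv i (((TT k i).toList.getD n (fun _ => 0, fun _ => 0)).1) m =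
    ((TT k i).toList.getD n (fun _ => 0, fun _ => 0)).2}

lemma card_TT (k i : ℕ) : (TT k i).card ≤ (i + 2) ^ (5 * k) := by
  unfold TT
  rw [Finset.card_product, card_TJ, card_TR, ← pow_mul, ← pow_mul, ← pow_add]
  apply Nat.pow_le_pow_right (by omega)
  omega

lemma AT_surj (k i : ℕ) {J r : Fin k → ℕ} (hJ : J ∈ TJ k i) (hr : r ∈ TR k i) :
    ∃ n < (TT k i).card, AT k i n = {m : ℕ | rv i J m = r} := by
  have h1 : (J, r) ∈ (TT k i).toList := by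
    rw [Finset.mem_toList]
    exact Finset.mem_product.mpr ⟨hJ, hr⟩
  obtain ⟨n, hn, h2⟩ := List.mem_iff_getElem.mp h1
  refine ⟨n, by rw [← Finset.length_toList]; exact hn, ?_⟩
  unfold AT
  have h3 : (TT k i).toList.getD n (fun _ => 0, fun _ => 0) = (J, r) := by
    rw [List.getD_eq_getElem?_getD, List.getElem?_eq_getElem hn, Option.getD_some]
    exact h2
  rw [h3]

/-- the sampling property for the rounded densities -/
def SampR (k : ℕ) (m : ℕ → ℕ) (c a κ : ℝ) : Prop := ∃ C : ℝ, 0 < C ∧ ∃ i0 : ℕ, ∀ i : ℕ, i0 ≤ i →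
  ∀ J ∈ TJ k i, ∀ r ∈ TR k i, ∀ u v : ℕ, 2 ^ i ≤ u → u ≤ v → v ≤ 2 ^ (i + 1) →
  ∀ S : Finset ℕ, (∀ n, n ∈ S ↔ 1 ≤ n ∧ u < m n ∧ m n ≤ v) →
    |((S.filter (fun n => rv i J (m n) = r)).card : ℝ) -
      a * ∑ t ∈ (Ioc u v).filter (fun t => rv i J t = r), wt c t| ≤ C * ((2 : ℝ) ^ i) ^ (1 / c - κ)

/-- **The sampling property holds for all amplitudes outside a small set.** -/
theorem samp_fin (c : ℝ) (hc : 1 < c) : ∃ E : Set ℝ, dimH E < 1 ∧ ∀ α : ℝ, 0 < α → α ∉ E →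
    ∃ κ : ℝ, 0 < κ ∧ ∀ k : ℕ, SampR k (ms α c) c (α ^ (-(1 / c))) κ := by
  classical
  obtain ⟨κ, hκ0, hκ1, hfam⟩ := famA c hc
  choose E hE h using fun k : ℕ => hfam (5 * k) (fun i => (TT k i).card) (fun i => card_TT k i) (AT k)
  refine ⟨⋃ k, E k, ?_, fun α hα hαE => ⟨κ / 4, by positivity, fun k =>
    ⟨2 * (1 + 2 * α ^ (-(1 / c))), by positivity, ?_⟩⟩⟩
  · rw [dimH_iUnion]
    refine lt_of_le_of_lt (iSup_le hE) ?_
    have : (1 : ENNReal) = ENNReal.ofReal 1 := by simp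
    rw [this]
    exact (ENNReal.ofReal_lt_ofReal_iff (by norm_num)).mpr (by linarith)
  have hαk : α ∉ E k := fun hh => hαE (Set.mem_iUnion.mpr ⟨k, hh⟩)
  obtain ⟨i1, h1⟩ := h k α hα hαk
  refine ⟨i1, fun i hi1 J hJ r hr u v hu huv hv S hS => ?_⟩
  obtain ⟨n, hn, hAn⟩ := AT_surj k i hJ hr
  have h3 := h1 i hi1 n hn v (hu.trans huv) hv
  have h4 := h1 i hi1 n hn u hu (huv.trans hv)
  rw [hAn] at h3 h4
  rw [← Finset.sum_Ioc_consecutive _ hu huv] at h3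
  have h6 := card_SA {m : ℕ | rv i J m = r} hc hα S hS
  have h7 : α ^ (-(1 / c)) * ∑ t ∈ (Ioc u v).filter (fun t => rv i J t = r), wt c t =
      ∑ m ∈ Ioc u v, Pool.Agent.H706R2.PS.A13aux.mt {m : ℕ | rv i J m = r} c α m := by
    rw [Finset.mul_sum, Finset.sum_filter]
    apply Finset.sum_congr rfl
    intro m _
    unfold Pool.Agent.H706R2.PS.A13aux.mt wt
    simp only [Set.mem_setOf_eq]
    split_ifs
    · ring
    · rfl
  have h8 : ((S.filter (fun n => rv i J (ms α c n) = r)).card : ℝ) =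
      ((S.filter (fun n => ms α c n ∈ {m : ℕ | rv i J m = r})).card : ℝ) := by
    congr 1
  rw [h8, h6, h7, ← Finset.sum_sub_distrib]
  rw [abs_le] at h3 h4 ⊢
  constructor <;> linarith [h3.1, h3.2, h4.1, h4.2]

/-- the function of the rounded densities -/
noncomputable def Ps {k : ℕ} (Φ : (Fin k → ℝ) → ℝ) (i : ℕ) (J : Fin k → ℕ) (m : ℕ) : ℝ :=
  Φ (fun l => ((rv i J m l : ℕ) : ℝ) / ((i : ℝ) + 2))

/-- one block with fixed indices -/
theorem block (k : ℕ) (m : ℕ → ℕ) (c a κ : ℝ) (hS : SampR k m c a κ) (Φ : (Fin k → ℝ) → ℝ) (Bd : ℝ)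
    (hB : ∀ z, |Φ z| ≤ Bd) : ∃ C : ℝ, 0 < C ∧ ∃ i0 : ℕ, ∀ i : ℕ, i0 ≤ i → ∀ J ∈ TJ k i,
    ∀ u v : ℕ, 2 ^ i ≤ u → u ≤ v → v ≤ 2 ^ (i + 1) →
    ∀ S : Finset ℕ, (∀ n, n ∈ S ↔ 1 ≤ n ∧ u < m n ∧ m n ≤ v) →
      |∑ n ∈ S, Ps Φ i J (m n) - a * ∑ t ∈ Ioc u v, wt c t * Ps Φ i J t| ≤
        C * ((i : ℝ) + 2) ^ (2 * k) * ((2 : ℝ) ^ i) ^ (1 / c - κ) := by
  classical
  obtain ⟨C, hC, i0, h⟩ := hS
  have hBd : 0 ≤ Bd := (abs_nonneg _).trans (hB (fun _ => 0))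
  refine ⟨(Bd + 1) * C, by positivity, i0, fun i hi J hJ u v hu huv hv S hSc => ?_⟩
  have hm1 : ∀ n ∈ S, rv i J (m n) ∈ TR k i := fun n hn => rv_mem i J (((hSc n).mp hn).2.2.trans hv)
  have hm2 : ∀ t ∈ Ioc u v, rv i J t ∈ TR k i := fun t ht => rv_mem i J ((mem_Ioc.mp ht).2.trans hv)
  set vl : (Fin k → ℕ) → ℝ := fun r => Φ (fun l => ((r l : ℕ) : ℝ) / ((i : ℝ) + 2)) with hvl
  have e1 : ∑ n ∈ S, Ps Φ i J (m n) =
      ∑ r ∈ TR k i, vl r * ((S.filter (fun n => rv i J (m n) = r)).card : ℝ) := by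
    rw [← Finset.sum_fiberwise_of_maps_to hm1]
    apply Finset.sum_congr rfl
    intro r _
    rw [Finset.sum_congr rfl (g := fun _ => vl r)]
    · rw [sum_const, nsmul_eq_mul, mul_comm]
    · intro n hn
      rw [mem_filter] at hn
      unfold Ps
      rw [hn.2]
  have e2 : ∑ t ∈ Ioc u v, wt c t * Ps Φ i J t =
      ∑ r ∈ TR k i, vl r * ∑ t ∈ (Ioc u v).filter (fun t => rv i J t = r), wt c t := by
    rw [← Finset.sum_fiberwise_of_maps_to hm2]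
    apply Finset.sum_congr rfl
    intro r _
    rw [Finset.mul_sum]
    apply Finset.sum_congr rfl
    intro n hn
    rw [mem_filter] at hn
    unfold Ps
    rw [hn.2, mul_comm]
  have e3 : ∑ n ∈ S, Ps Φ i J (m n) - a * ∑ t ∈ Ioc u v, wt c t * Ps Φ i J t =
      ∑ r ∈ TR k i, vl r * (((S.filter (fun n => rv i J (m n) = r)).card : ℝ) -
        a * ∑ t ∈ (Ioc u v).filter (fun t => rv i J t = r), wt c t) := by
    rw [e1, e2, Finset.mul_sum, ← Finset.sum_sub_distrib]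
    apply Finset.sum_congr rfl
    intro r _
    ring
  rw [e3]
  refine (Finset.abs_sum_le_sum_abs _ _).trans ?_
  have hX : 0 < ((2 : ℝ) ^ i) ^ (1 / c - κ) := by positivity
  calc ∑ r ∈ TR k i, |vl r * (((S.filter (fun n => rv i J (m n) = r)).card : ℝ) -
        a * ∑ t ∈ (Ioc u v).filter (fun t => rv i J t = r), wt c t)| ≤
      ∑ r ∈ TR k i, (Bd + 1) * (C * ((2 : ℝ) ^ i) ^ (1 / c - κ)) := by
        apply Finset.sum_le_sum
        intro r hr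
        rw [abs_mul]
        apply mul_le_mul _ (h i hi J hJ r hr u v hu huv hv S hSc) (abs_nonneg _) (by positivity)
        exact (hB _).trans (by linarith)
    _ = (Bd + 1) * C * ((i : ℝ) + 2) ^ (2 * k) * ((2 : ℝ) ^ i) ^ (1 / c - κ) := by
        rw [sum_const, card_TR, nsmul_eq_mul]
        push_cast
        rw [pow_mul]
        ring

/-- the function of the rounded densities, as a function of the integer -/
noncomputable def Pt {k : ℕ} (Φ : (Fin k → ℝ) → ℝ) (θ : Fin k → ℝ) (i m : ℕ) : ℝ := Ps Φ i (Jv i θ m) m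

/-- one dyadic scale -/
theorem scaleR (k : ℕ) (α c a κ : ℝ) (hα : 0 < α) (hc : 1 < c) (hκ : 0 < κ)
    (hS : SampR k (ms α c) c a κ) (Φ : (Fin k → ℝ) → ℝ) (Bd : ℝ) (hB : ∀ z, |Φ z| ≤ Bd)
    (θ : Fin k → ℝ) (hθ : ∀ l, 0 < θ l ∧ θ l ≤ 1) (δ : ℝ) (hδ : 0 < δ) : ∃ i0 : ℕ, ∀ i : ℕ, i0 ≤ i →
    ∀ y : ℕ, 2 ^ i ≤ y → y ≤ 2 ^ (i + 1) → ∀ S : Finset ℕ, (∀ n, n ∈ S ↔ 1 ≤ n ∧ 2 ^ i < ms α c n ∧ ms α c n ≤ y) →
      |∑ n ∈ S, Pt Φ θ i (ms α c n) - a * ∑ t ∈ Ioc (2 ^ i) y, wt c t * Pt Φ θ i t| ≤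
        δ * ((2 : ℝ) ^ i) ^ (1 / c) := by
  classical
  obtain ⟨C, hC, i1, hblock⟩ := block k (ms α c) c a κ hS Φ Bd hB
  obtain ⟨i2, hi2⟩ := (poly_growth (5 * k + 1) κ hκ).exists_forall_of_atTop
  obtain ⟨i3, hi3⟩ := exists_nat_ge (C / δ)
  refine ⟨max i1 (max i2 i3), fun i hi y hy1 hy2 S hSc => ?_⟩
  have hii1 : i1 ≤ i := (le_max_left _ _).trans hi
  have hii2 : i2 ≤ i := ((le_max_left _ _).trans (le_max_right _ _)).trans hi
  have hii3 : i3 ≤ i := ((le_max_right _ _).trans (le_max_right _ _)).trans hi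
  have hm1 : ∀ n ∈ S, Jv i θ (ms α c n) ∈ TJ k i := fun n hn => by
    have := (hSc n).mp hn
    exact Jv_mem i θ hθ (by omega) (this.2.2.trans hy2)
  have hm2 : ∀ t ∈ Ioc (2 ^ i) y, Jv i θ t ∈ TJ k i := fun t ht => by
    rw [mem_Ioc] at ht
    exact Jv_mem i θ hθ (by omega) (ht.2.trans hy2)
  set Er : ℝ := C * ((i : ℝ) + 2) ^ (2 * k) * ((2 : ℝ) ^ i) ^ (1 / c - κ) with hEr
  have hEr0 : 0 ≤ Er := by positivity
  have e3 : ∑ n ∈ S, Pt Φ θ i (ms α c n) - a * ∑ t ∈ Ioc (2 ^ i) y, wt c t * Pt Φ θ i t =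
      ∑ J ∈ TJ k i, (∑ n ∈ S.filter (fun n => Jv i θ (ms α c n) = J), Pt Φ θ i (ms α c n) -
        a * ∑ t ∈ (Ioc (2 ^ i) y).filter (fun t => Jv i θ t = J), wt c t * Pt Φ θ i t) := by
    rw [← Finset.sum_fiberwise_of_maps_to hm1, ← Finset.sum_fiberwise_of_maps_to hm2, Finset.mul_sum,
      ← Finset.sum_sub_distrib]
  rw [e3]
  have hJ : ∀ J ∈ TJ k i, |∑ n ∈ S.filter (fun n => Jv i θ (ms α c n) = J), Pt Φ θ i (ms α c n) -
        a * ∑ t ∈ (Ioc (2 ^ i) y).filter (fun t => Jv i θ t = J), wt c t * Pt Φ θ i t| ≤ Er := by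
    intro J hJ
    have g1 : ∑ n ∈ S.filter (fun n => Jv i θ (ms α c n) = J), Pt Φ θ i (ms α c n) =
        ∑ n ∈ S.filter (fun n => Jv i θ (ms α c n) = J), Ps Φ i J (ms α c n) := by
      apply Finset.sum_congr rfl
      intro n hn
      rw [mem_filter] at hn
      unfold Pt
      rw [hn.2]
    have g2 : ∑ t ∈ (Ioc (2 ^ i) y).filter (fun t => Jv i θ t = J), wt c t * Pt Φ θ i t =
        ∑ t ∈ (Ioc (2 ^ i) y).filter (fun t => Jv i θ t = J), wt c t * Ps Φ i J t := by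
      apply Finset.sum_congr rfl
      intro n hn
      rw [mem_filter] at hn
      unfold Pt
      rw [hn.2]
    rw [g1, g2]
    have hmemS : ∀ n, n ∈ S.filter (fun n => Jv i θ (ms α c n) = J) ↔
        1 ≤ n ∧ ms α c n ∈ (Ioc (2 ^ i) y).filter (fun t => Jv i θ t = J) := by
      intro n
      rw [mem_filter, hSc, mem_filter, mem_Ioc]
      tauto
    rcases level k i θ hθ J y with hemp | ⟨u, v, hu, huv, hvy, hV⟩
    · have hSe : S.filter (fun n => Jv i θ (ms α c n) = J) = ∅ := by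
        apply Finset.eq_empty_of_forall_notMem
        intro n hn
        have := (hmemS n).mp hn
        rw [hemp] at this
        exact absurd this.2 (Finset.notMem_empty _)
      rw [hemp, hSe]
      simp only [sum_empty, mul_zero, sub_zero, abs_zero]
      exact hEr0
    · have hVe : (Ioc (2 ^ i) y).filter (fun t => Jv i θ t = J) = Ioc u v := by
        ext t
        rw [hV, mem_Ioc]
      rw [hVe]
      apply hblock i hii1 J hJ u v hu huv (hvy.trans hy2)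
      intro n
      rw [hmemS, hV]
  refine (Finset.abs_sum_le_sum_abs _ _).trans ((Finset.sum_le_sum hJ).trans ?_)
  rw [sum_const, card_TJ, nsmul_eq_mul]
  have hXpos : (0 : ℝ) < (2 : ℝ) ^ i := by positivity
  have h5 := hi2 i hii2
  have h6 : C / δ ≤ (i : ℝ) + 2 := by
    have : (i3 : ℝ) ≤ i := by exact_mod_cast hii3
    linarith
  rw [div_le_iff₀ hδ] at h6
  have hq : 0 < ((2 : ℝ) ^ i) ^ (1 / c - κ) := by positivity
  calc ((((i + 2) ^ 3) ^ k : ℕ) : ℝ) * Er =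
      C * ((i : ℝ) + 2) ^ (5 * k) * ((2 : ℝ) ^ i) ^ (1 / c - κ) := by
        rw [hEr]
        push_cast
        rw [← pow_mul]
        have : ((i : ℝ) + 2) ^ (5 * k) = ((i : ℝ) + 2) ^ (3 * k) * ((i : ℝ) + 2) ^ (2 * k) := by
          rw [← pow_add]; congr 1; ring
        rw [this]
        ring
    _ ≤ (((i : ℝ) + 2) * δ) * ((i : ℝ) + 2) ^ (5 * k) * ((2 : ℝ) ^ i) ^ (1 / c - κ) := by
        gcongr
    _ = δ * (((i : ℝ) + 2) ^ (5 * k + 1) * ((2 : ℝ) ^ i) ^ (1 / c - κ)) := by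
        rw [pow_succ]
        ring
    _ ≤ δ * (((2 : ℝ) ^ i) ^ κ * ((2 : ℝ) ^ i) ^ (1 / c - κ)) := by
        gcongr
    _ = δ * ((2 : ℝ) ^ i) ^ (1 / c) := by
        rw [← Real.rpow_add hXpos]
        congr 2
        ring

end Pool.Agent.Y854.ST
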