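import Pool.Agent.Y854.PS.FamA
import Pool.Agent.Y854.PS.Total

/-! Local statistics of the primes at several scales: the rounded densities on a fine grid of lengths. -/

set_option autoImplicit false

open Finset Filter

namespace Pool.Agent.Y854.ST

open Pool.Agent.Y854.PS

/-- the fine grid of lengths at scale `i` -/
noncomputable def hf (i j : ℕ) : ℝ := (2 : ℝ) ^ ((j : ℝ) / ((i : ℝ) + 1) ^ 2)

/-- density of the primes in `(m, m + hf i j]` -/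
noncomputable def Gd (i j m : ℕ) : ℝ := (pcn m ⌊hf i j⌋₊ : ℝ) * Real.log m / hf i j

/-- index of a length -/
noncomputable def jf (i : ℕ) (H : ℝ) : ℕ := ⌊((i : ℝ) + 1) ^ 2 * Real.logb 2 H⌋₊

/-- the rounded densities -/
noncomputable def rv {k : ℕ} (i : ℕ) (J : Fin k → ℕ) (m : ℕ) : Fin k → ℕ :=
  fun l => ⌊((i : ℝ) + 2) * Gd i (J l) m⌋₊

/-- the indices of the lengths `m ^ θ` -/
noncomputable def Jv {k : ℕ} (i : ℕ) (θ : Fin k → ℝ) (m : ℕ) : Fin k → ℕ :=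
  fun l => jf i ((m : ℝ) ^ (θ l))

/-- index sets -/
def TJ (k i : ℕ) : Finset (Fin k → ℕ) := Fintype.piFinset (fun _ => range ((i + 2) ^ 3))

/-- index sets -/
def TR (k i : ℕ) : Finset (Fin k → ℕ) := Fintype.piFinset (fun _ => range ((i + 2) ^ 2))

lemma card_TJ (k i : ℕ) : (TJ k i).card = ((i + 2) ^ 3) ^ k := by
  unfold TJ
  rw [Fintype.card_piFinset]
  simp

lemma card_TR (k i : ℕ) : (TR k i).card = ((i + 2) ^ 2) ^ k := by
  unfold TR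
  rw [Fintype.card_piFinset]
  simp

lemma hf_pos (i j : ℕ) : 0 < hf i j := Real.rpow_pos_of_pos (by norm_num) _

lemma one_le_hf (i j : ℕ) : 1 ≤ hf i j := Real.one_le_rpow (by norm_num) (by positivity)

lemma Gd_nonneg (i j m : ℕ) : 0 ≤ Gd i j m := by
  unfold Gd
  exact div_nonneg (mul_nonneg (Nat.cast_nonneg _) (Real.log_natCast_nonneg m)) (hf_pos i j).le

lemma Gd_le (i j m : ℕ) : Gd i j m ≤ Real.log m := by
  unfold Gd
  rw [div_le_iff₀ (hf_pos i j)]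
  have h1 : (pcn m ⌊hf i j⌋₊ : ℝ) ≤ hf i j := by
    have h2 : (pcn m ⌊hf i j⌋₊ : ℝ) ≤ (⌊hf i j⌋₊ : ℝ) := by exact_mod_cast pcn_le m _
    exact h2.trans (Nat.floor_le (hf_pos i j).le)
  have h2 := Real.log_natCast_nonneg m
  nlinarith

lemma rv_mem {k : ℕ} (i : ℕ) (J : Fin k → ℕ) {m : ℕ} (hm : m ≤ 2 ^ (i + 1)) : rv i J m ∈ TR k i := by
  unfold TR
  rw [Fintype.mem_piFinset]
  intro l
  rw [mem_range]
  unfold rv
  rw [Nat.floor_lt (mul_nonneg (by positivity) (Gd_nonneg _ _ _))]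
  have h1 := (Gd_le i (J l) m).trans (log_le_of_le hm)
  push_cast
  have h2 : (0 : ℝ) < (i : ℝ) + 2 := by positivity
  nlinarith

lemma Jv_mem {k : ℕ} (i : ℕ) (θ : Fin k → ℝ) (hθ : ∀ l, 0 < θ l ∧ θ l ≤ 1) {m : ℕ} (hm0 : 1 ≤ m)
    (hm : m ≤ 2 ^ (i + 1)) : Jv i θ m ∈ TJ k i := by
  unfold TJ
  rw [Fintype.mem_piFinset]
  intro l
  rw [mem_range]
  unfold Jv jf
  have hm0' : (1 : ℝ) ≤ m := by exact_mod_cast hm0
  have h1 : 1 ≤ (m : ℝ) ^ (θ l) := Real.one_le_rpow hm0' (hθ l).1.le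
  have h2 : 0 ≤ Real.logb 2 ((m : ℝ) ^ (θ l)) := Real.logb_nonneg (by norm_num) h1
  rw [Nat.floor_lt (mul_nonneg (by positivity) h2)]
  have h3 : (m : ℝ) ^ (θ l) ≤ (2 : ℝ) ^ (i + 1) := by
    calc (m : ℝ) ^ (θ l) ≤ (m : ℝ) ^ (1 : ℝ) := Real.rpow_le_rpow_of_exponent_le hm0' (hθ l).2
      _ = m := Real.rpow_one _
      _ ≤ (2 : ℝ) ^ (i + 1) := by exact_mod_cast hm
  have h4 : Real.logb 2 ((m : ℝ) ^ (θ l)) ≤ i + 1 := by
    have h5 := Real.logb_le_logb_of_le (b := 2) (by norm_num) (by linarith) h3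
    rw [Real.logb_pow, Real.logb_self_eq_one (by norm_num), mul_one] at h5
    push_cast at h5
    exact h5
  push_cast
  have h5 : (0 : ℝ) ≤ i := Nat.cast_nonneg i
  calc ((i : ℝ) + 1) ^ 2 * Real.logb 2 ((m : ℝ) ^ (θ l)) ≤ ((i : ℝ) + 1) ^ 2 * ((i : ℝ) + 1) :=
        mul_le_mul_of_nonneg_left h4 (by positivity)
    _ < ((i : ℝ) + 2) ^ 3 := by nlinarith [sq_nonneg ((i : ℝ))]

lemma Jv_mono {k : ℕ} (i : ℕ) (θ : Fin k → ℝ) (hθ : ∀ l, 0 < θ l ∧ θ l ≤ 1) {m m' : ℕ} (hm0 : 1 ≤ m)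
    (h : m ≤ m') (l : Fin k) : Jv i θ m l ≤ Jv i θ m' l := by
  unfold Jv jf
  apply Nat.floor_le_floor
  apply mul_le_mul_of_nonneg_left _ (by positivity)
  have hm0' : (0 : ℝ) < m := by exact_mod_cast hm0
  apply Real.logb_le_logb_of_le (by norm_num) (Real.rpow_pos_of_pos hm0' _)
  exact Real.rpow_le_rpow hm0'.le (by exact_mod_cast h) (hθ l).1.le

/-- level sets of `Jv` are intervals -/
lemma level (k i : ℕ) (θ : Fin k → ℝ) (hθ : ∀ l, 0 < θ l ∧ θ l ≤ 1) (J : Fin k → ℕ) (y : ℕ) :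
    (Ioc (2 ^ i) y).filter (fun m => Jv i θ m = J) = ∅ ∨
      ∃ u v, 2 ^ i ≤ u ∧ u ≤ v ∧ v ≤ y ∧ ∀ m, m ∈ (Ioc (2 ^ i) y).filter (fun m => Jv i θ m = J) ↔ u < m ∧ m ≤ v := by
  classical
  set V := (Ioc (2 ^ i) y).filter (fun m => Jv i θ m = J) with hV
  rcases V.eq_empty_or_nonempty with h | hne
  · exact Or.inl h
  right
  obtain ⟨m1, hm1, hmin⟩ : ∃ m1 ∈ V, ∀ m ∈ V, m1 ≤ m := ⟨V.min' hne, V.min'_mem hne, fun n hn => V.min'_le n hn⟩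
  obtain ⟨m2, hm2, hmax⟩ : ∃ m2 ∈ V, ∀ m ∈ V, m ≤ m2 := ⟨V.max' hne, V.max'_mem hne, fun n hn => V.le_max' n hn⟩
  have hmem : ∀ m, m ∈ V ↔ (2 ^ i < m ∧ m ≤ y) ∧ Jv i θ m = J := by
    intro m
    rw [hV, mem_filter, mem_Ioc]
  obtain ⟨⟨a1, a2⟩, a3⟩ := (hmem m1).mp hm1
  obtain ⟨⟨b1, b2⟩, b3⟩ := (hmem m2).mp hm2
  have h2i : 0 < 2 ^ i := Nat.two_pow_pos i
  refine ⟨m1 - 1, m2, by omega, by have := hmin m2 hm2; omega, b2, fun m => ?_⟩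
  constructor
  · intro hm
    have h1 := hmin m hm
    have h2 := hmax m hm
    omega
  · rintro ⟨h1, h2⟩
    rw [hmem]
    refine ⟨⟨by omega, by omega⟩, ?_⟩
    funext l
    have h3 := Jv_mono i θ hθ (m := m1) (m' := m) (by omega) (by omega) l
    have h4 := Jv_mono i θ hθ (m := m) (m' := m2) (by omega) h2 l
    rw [a3] at h3
    rw [b3] at h4
    omega

end Pool.Agent.Y854.ST
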