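import Pool.Agent.Y854.ST.Equiv

/-! Local statistics along `α n^c` and over all integers. -/

set_option autoImplicit false

open Finset Filter Topology

namespace Pool.Agent.Y854.ST

open Pool.Agent.Y854.PS

lemma tend_iff (S : ℕ → ℝ) (L : ℝ) : Tendsto (fun N : ℕ => S N / N) atTop (𝓝 L) ↔
    ∀ δ : ℝ, 0 < δ → ∃ N0 : ℕ, ∀ N : ℕ, N0 ≤ N → |S N - L * N| ≤ δ * N := by
  rw [Metric.tendsto_atTop]
  constructor
  · intro h δ hδ
    obtain ⟨N0, h0⟩ := h δ hδ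
    refine ⟨max N0 1, fun N hN => ?_⟩
    have h1 := h0 N ((le_max_left _ _).trans hN)
    have hN1 : (0 : ℝ) < N := by
      have : 1 ≤ N := (le_max_right _ _).trans hN
      exact_mod_cast this
    rw [Real.dist_eq] at h1
    have e : S N - L * N = (S N / N - L) * N := by field_simp
    rw [e, abs_mul, abs_of_pos hN1]
    exact mul_le_mul_of_nonneg_right h1.le hN1.le
  · intro h ε hε
    obtain ⟨N0, h0⟩ := h (ε / 2) (half_pos hε)
    refine ⟨max N0 1, fun N hN => ?_⟩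
    have h1 := h0 N ((le_max_left _ _).trans hN)
    have hN1 : (0 : ℝ) < N := by
      have : 1 ≤ N := (le_max_right _ _).trans hN
      exact_mod_cast this
    rw [Real.dist_eq]
    have e : S N / N - L = (S N - L * N) / N := by field_simp
    rw [e, abs_div, abs_of_pos hN1, div_lt_iff₀ hN1]
    nlinarith

lemma exists_block {α c : ℝ} (hα : 0 < α) (hc : 1 < c) (t : ℕ) : ∃ N : ℕ, ms α c N ≤ t ∧ t < ms α c (N + 1) := by
  have hc0 : 0 < c := by linarith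
  have hms : Tendsto (fun n : ℕ => xs α c n) atTop atTop := by
    have h1 : Tendsto (fun n : ℕ => (n : ℝ) ^ c) atTop atTop :=
      (tendsto_rpow_atTop hc0).comp tendsto_natCast_atTop_atTop
    exact h1.const_mul_atTop hα
  have hex : ∃ n : ℕ, t < ms α c n := by
    obtain ⟨n, hn⟩ := (hms.eventually (eventually_ge_atTop ((t : ℝ) + 1))).exists
    refine ⟨n, ?_⟩
    have : t + 1 ≤ ms α c n := Nat.le_floor (by push_cast; exact hn)
    omega
  have h0 : ms α c 0 = 0 := by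
    unfold ms xs
    simp [Real.zero_rpow hc0.ne']
  classical
  have h1 := Nat.find_spec hex
  have h2 : Nat.find hex ≠ 0 := by
    intro h
    rw [h, h0] at h1
    omega
  obtain ⟨N, hN⟩ := Nat.exists_eq_succ_of_ne_zero h2
  refine ⟨N, ?_, by rw [← Nat.succ_eq_add_one, ← hN]; exact h1⟩
  have h3 := Nat.find_min hex (m := N) (by omega)
  omega

/-- bound for all the weighted sums -/
lemma U_bound {k : ℕ} {α c κ : ℝ} (hα : 0 < α) (hc : 1 < c) (hκ : 0 < κ)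
    (hS : SampR k (ms α c) c (α ^ (-(1 / c))) κ) {Φ : (Fin k → ℝ) → ℝ} (hΦ : UniformContinuous Φ)
    {Bd : ℝ} (hB : ∀ z, |Φ z| ≤ Bd)
    {θ : Fin k → ℝ} (hθ : ∀ l, 0 < θ l ∧ θ l ≤ 1) {L : ℝ}
    (hlim : ∀ δ : ℝ, 0 < δ → ∃ N0 : ℕ, ∀ N : ℕ, N0 ≤ N →
      |∑ n ∈ Icc 1 N, Fx Φ θ (xs α c n) - L * N| ≤ δ * N) (η : ℝ) (hη : 0 < η) :
    ∃ C : ℝ, 0 ≤ C ∧ ∀ t : ℕ, |∑ m ∈ Ioc 0 t, wt c m * (Fx Φ θ (m : ℝ) - L)| ≤
      η * ((t : ℝ) + 1) ^ (1 / c) + C := by
  have hc0 : 0 < c := by linarith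
  have hBd : 0 ≤ Bd := (abs_nonneg _).trans (hB (fun _ => 0))
  set a := α ^ (-(1 / c)) with ha
  have ha0 : 0 < a := Real.rpow_pos_of_pos hα _
  obtain ⟨N1, h1⟩ := law k α c κ hα hc hκ hS Φ hΦ Bd hB θ hθ (η / 2) (by positivity)
  obtain ⟨N2, h2⟩ := hlim (η / 2) (by positivity)
  set N0 := max N1 N2 with hN0
  set B1 : ℝ := Bd + |L| with hB1
  have hB10 : 0 ≤ B1 := by have := abs_nonneg L; positivity
  set U : ℕ → ℝ := fun t => ∑ m ∈ Ioc 0 t, wt c m * (Fx Φ θ (m : ℝ) - L) with hU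
  have hb : ∀ m : ℕ, |Fx Φ θ (m : ℝ) - L| ≤ B1 := by
    intro m
    have h3 : |Fx Φ θ (m : ℝ)| ≤ Bd := hB _
    exact (abs_sub _ _).trans (by linarith)
  have hdiff : ∀ s t : ℕ, s ≤ t → |U t - U s| ≤ B1 * (∑ m ∈ Ioc 0 t, wt c m - ∑ m ∈ Ioc 0 s, wt c m) := by
    intro s t hst
    have e1 : U t - U s = ∑ m ∈ Ioc s t, wt c m * (Fx Φ θ (m : ℝ) - L) := by
      rw [hU]
      simp only
      rw [← Finset.sum_Ioc_consecutive _ (Nat.zero_le s) hst]
      ring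
    have e2 : ∑ m ∈ Ioc 0 t, wt c m - ∑ m ∈ Ioc 0 s, wt c m = ∑ m ∈ Ioc s t, wt c m := by
      rw [← Finset.sum_Ioc_consecutive _ (Nat.zero_le s) hst]
      ring
    rw [e1, e2, Finset.mul_sum]
    refine (Finset.abs_sum_le_sum_abs _ _).trans (Finset.sum_le_sum fun m _ => ?_)
    rw [abs_mul, abs_of_nonneg (wt_nonneg hc m), mul_comm]
    exact mul_le_mul_of_nonneg_right (hb m) (wt_nonneg hc m)
  have hU0 : U 0 = 0 := by rw [hU]; simp
  refine ⟨|L| + B1 * (1 / a + 1) + B1 * (N0 / a), by positivity, fun t => ?_⟩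
  obtain ⟨N, hNt, htN⟩ := exists_block hα hc t
  have hw1 := wsum hα hc N
  have hw2 := wsum hα hc (N + 1)
  rw [← ha] at hw1 hw2
  set WN := ∑ m ∈ Ioc 0 (ms α c N), wt c m with hWN
  set WN1 := ∑ m ∈ Ioc 0 (ms α c (N + 1)), wt c m with hWN1
  have hWt : ∑ m ∈ Ioc 0 t, wt c m ≤ WN1 := by
    apply Finset.sum_le_sum_of_subset_of_nonneg
    · intro m hm
      rw [mem_Ioc] at hm ⊢
      omega
    · intro m _ _
      exact wt_nonneg hc m
  have hNn : (0 : ℝ) ≤ N0 := Nat.cast_nonneg _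
  rcases le_or_gt N0 N with hcase | hcase
  · have g1 := h1 N ((le_max_left _ _).trans hcase)
    have g2 := h2 N ((le_max_right _ _).trans hcase)
    rw [← ha] at g1
    have e1 : a * U (ms α c N) = a * ∑ m ∈ Ioc 0 (ms α c N), wt c m * Fx Φ θ (m : ℝ) - L * (a * WN) := by
      rw [hU, hWN]
      simp only
      have : ∑ m ∈ Ioc 0 (ms α c N), wt c m * (Fx Φ θ (m : ℝ) - L) =
          ∑ m ∈ Ioc 0 (ms α c N), wt c m * Fx Φ θ (m : ℝ) - L * ∑ m ∈ Ioc 0 (ms α c N), wt c m := by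
        rw [Finset.mul_sum, ← Finset.sum_sub_distrib]
        apply Finset.sum_congr rfl
        intro m _
        ring
      rw [this]
      ring
    have g3 : |L * (N - a * WN)| ≤ |L| * a := by
      rw [abs_mul]
      apply mul_le_mul_of_nonneg_left _ (abs_nonneg _)
      rw [abs_le]
      constructor <;> linarith [hw1.1, hw1.2]
    have g4 : |a * U (ms α c N)| ≤ η * N + |L| * a := by
      have e2 : a * U (ms α c N) = -(∑ n ∈ Icc 1 N, Fx Φ θ (xs α c n) -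
          a * ∑ m ∈ Ioc 0 (ms α c N), wt c m * Fx Φ θ (m : ℝ)) +
          (∑ n ∈ Icc 1 N, Fx Φ θ (xs α c n) - L * N) + L * (N - a * WN) := by
        rw [e1]; ring
      rw [e2]
      have t1 := abs_add_le (-(∑ n ∈ Icc 1 N, Fx Φ θ (xs α c n) -
          a * ∑ m ∈ Ioc 0 (ms α c N), wt c m * Fx Φ θ (m : ℝ)) +
          (∑ n ∈ Icc 1 N, Fx Φ θ (xs α c n) - L * N)) (L * (N - a * WN))
      have t2 := abs_add_le (-(∑ n ∈ Icc 1 N, Fx Φ θ (xs α c n) -
          a * ∑ m ∈ Ioc 0 (ms α c N), wt c m * Fx Φ θ (m : ℝ)))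
          (∑ n ∈ Icc 1 N, Fx Φ θ (xs α c n) - L * N)
      rw [abs_neg] at t2
      linarith
    have g5 : |U (ms α c N)| ≤ (η * N + |L| * a) / a := by
      rw [le_div_iff₀ ha0, mul_comm]
      rwa [abs_mul, abs_of_pos ha0] at g4
    have g6 : (N : ℝ) ≤ a * ((t : ℝ) + 1) ^ (1 / c) := by
      have h3 : xs α c N < (t : ℝ) + 1 := by
        have h4 : xs α c N < ms α c N + 1 := Nat.lt_floor_add_one _
        have h5 : (ms α c N : ℝ) ≤ t := by exact_mod_cast hNt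
        linarith
      have h4 : (xs α c N) ^ (1 / c) ≤ ((t : ℝ) + 1) ^ (1 / c) :=
        Real.rpow_le_rpow (xs_nonneg hα N) h3.le (by positivity)
      have e : a * (xs α c N) ^ (1 / c) = N := by
        unfold xs
        rw [Real.mul_rpow hα.le (by positivity), ← Real.rpow_mul (Nat.cast_nonneg N),
          mul_one_div_cancel hc0.ne', Real.rpow_one, ← mul_assoc, ha, ← Real.rpow_add hα]
        simp
      rw [← e]
      exact mul_le_mul_of_nonneg_left h4 ha0.le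
    have g7 : (η * N + |L| * a) / a ≤ η * ((t : ℝ) + 1) ^ (1 / c) + |L| := by
      rw [div_le_iff₀ ha0]
      have := mul_le_mul_of_nonneg_left g6 hη.le
      linarith
    have g8 := hdiff (ms α c N) t hNt
    have g9 : ∑ m ∈ Ioc 0 t, wt c m - WN ≤ 1 / a + 1 := by
      have h3 : a * (WN1 - WN) ≤ 1 + a := by
        have h4 := hw2.2
        push_cast at h4
        linarith [hw1.1]
      have h4 : WN1 - WN ≤ (1 + a) / a := by
        rw [le_div_iff₀ ha0]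
        linarith
      have h5 : (1 + a) / a = 1 / a + 1 := by field_simp
      linarith
    have g10 : B1 * (∑ m ∈ Ioc 0 t, wt c m - WN) ≤ B1 * (1 / a + 1) := mul_le_mul_of_nonneg_left g9 hB10
    have e : U t = (U t - U (ms α c N)) + U (ms α c N) := by ring
    have t3 := abs_add_le (U t - U (ms α c N)) (U (ms α c N))
    rw [← e] at t3
    have h9 : 0 ≤ B1 * (N0 / a) := by positivity
    linarith
  · have g1 := hdiff 0 t (Nat.zero_le t)
    rw [hU0, sub_zero] at g1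
    have g2 : ∑ m ∈ Ioc 0 t, wt c m - ∑ m ∈ Ioc 0 0, wt c m ≤ N0 / a := by
      rw [Finset.Ioc_self, Finset.sum_empty, sub_zero, le_div_iff₀ ha0]
      have h3 : ((N + 1 : ℕ) : ℝ) ≤ N0 := by exact_mod_cast hcase
      have h4 := hw2.2
      have h5 := mul_le_mul_of_nonneg_left hWt ha0.le
      linarith
    have g3 := mul_le_mul_of_nonneg_left g2 hB10
    have h5 : 0 ≤ η * ((t : ℝ) + 1) ^ (1 / c) := by positivity
    have h6 : 0 ≤ B1 * (1 / a + 1) := by positivity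
    have h7 := abs_nonneg L
    linarith

/-- from the sequence to all integers -/
lemma to_integers {k : ℕ} {α c κ : ℝ} (hα : 0 < α) (hc : 1 < c) (hκ : 0 < κ)
    (hS : SampR k (ms α c) c (α ^ (-(1 / c))) κ) {Φ : (Fin k → ℝ) → ℝ} (hΦ : UniformContinuous Φ)
    {Bd : ℝ} (hB : ∀ z, |Φ z| ≤ Bd)
    {θ : Fin k → ℝ} (hθ : ∀ l, 0 < θ l ∧ θ l ≤ 1) {L : ℝ}
    (hlim : ∀ δ : ℝ, 0 < δ → ∃ N0 : ℕ, ∀ N : ℕ, N0 ≤ N →
      |∑ n ∈ Icc 1 N, Fx Φ θ (xs α c n) - L * N| ≤ δ * N) (δ : ℝ) (hδ : 0 < δ) :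
    ∃ M0 : ℕ, ∀ M : ℕ, M0 ≤ M → |∑ m ∈ Icc 1 M, Fx Φ θ (m : ℝ) - L * M| ≤ δ * M := by
  have hc0 : 0 < c := by linarith
  obtain ⟨C, hC, hU⟩ := U_bound hα hc hκ hS hΦ hB hθ hlim (δ / (8 * c)) (by positivity)
  have hT : Tendsto (fun M : ℕ => (M : ℝ) ^ (1 / c)) atTop atTop :=
    (tendsto_rpow_atTop (by positivity)).comp tendsto_natCast_atTop_atTop
  obtain ⟨M0, hM0⟩ := (hT.eventually (eventually_ge_atTop (4 * c * C / δ))).exists_forall_of_atTop
  refine ⟨max M0 1, fun M hM => ?_⟩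
  have hM1 : 1 ≤ M := (le_max_right _ _).trans hM
  have hM1' : (1 : ℝ) ≤ M := by exact_mod_cast hM1
  have hMpos : (0 : ℝ) < M := by linarith
  have h1 := hM0 M ((le_max_left _ _).trans hM)
  set g : ℕ → ℝ := fun m => c * (m : ℝ) ^ (1 - 1 / c) with hg
  have hexp : 0 ≤ 1 - 1 / c := by
    have : 1 / c ≤ 1 := by rw [div_le_one hc0]; exact hc.le
    linarith
  have hwg : ∀ m : ℕ, 1 ≤ m → wt c m * g m = 1 := by
    intro m hm
    have hmpos : (0 : ℝ) < m := by exact_mod_cast hm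
    rw [hg]
    unfold wt
    simp only
    have : (m : ℝ) ^ (1 / c - 1) * (m : ℝ) ^ (1 - 1 / c) = 1 := by
      rw [← Real.rpow_add hmpos]
      simp
    calc 1 / c * (m : ℝ) ^ (1 / c - 1) * (c * (m : ℝ) ^ (1 - 1 / c)) =
        (1 / c * c) * ((m : ℝ) ^ (1 / c - 1) * (m : ℝ) ^ (1 - 1 / c)) := by ring
      _ = 1 := by rw [this, one_div_mul_cancel hc0.ne', one_mul]
  have hBpos : 0 ≤ δ / (8 * c) * ((M : ℝ) + 1) ^ (1 / c) + C := by positivity
  have h2 := abel_incr (fun m => wt c m * (Fx Φ θ (m : ℝ) - L)) g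
    (δ / (8 * c) * ((M : ℝ) + 1) ^ (1 / c) + C) M hM1 hBpos
    (fun m hm => by rw [hg]; positivity)
    (fun m hm => by
      rw [hg]
      simp only
      apply mul_le_mul_of_nonneg_left _ hc0.le
      apply Real.rpow_le_rpow (Nat.cast_nonneg _) _ hexp
      push_cast
      linarith)
    (fun t ht => by
      refine (hU t).trans ?_
      have h3 : ((t : ℝ) + 1) ^ (1 / c) ≤ ((M : ℝ) + 1) ^ (1 / c) := by
        apply Real.rpow_le_rpow (by positivity) _ (by positivity)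
        have : (t : ℝ) ≤ M := by exact_mod_cast ht
        linarith
      have h4 := mul_le_mul_of_nonneg_left h3 (show 0 ≤ δ / (8 * c) by positivity)
      linarith)
  have e1 : ∑ m ∈ Ioc 0 M, wt c m * (Fx Φ θ (m : ℝ) - L) * g m = ∑ m ∈ Icc 1 M, Fx Φ θ (m : ℝ) - L * M := by
    have e2 : ∑ m ∈ Ioc 0 M, wt c m * (Fx Φ θ (m : ℝ) - L) * g m = ∑ m ∈ Icc 1 M, (Fx Φ θ (m : ℝ) - L) := by
      rw [Ioc_zero]
      apply Finset.sum_congr rfl
      intro m hm
      rw [mem_Icc] at hm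
      have h3 := hwg m hm.1
      calc wt c m * (Fx Φ θ (m : ℝ) - L) * g m = (wt c m * g m) * (Fx Φ θ (m : ℝ) - L) := by ring
        _ = _ := by rw [h3, one_mul]
    rw [e2, Finset.sum_sub_distrib, sum_const, Nat.card_Icc, nsmul_eq_mul, Nat.add_sub_cancel]
    ring
  rw [e1] at h2
  refine h2.trans ?_
  have h3 : ((M : ℝ) + 1) ^ (1 / c) ≤ 2 * (M : ℝ) ^ (1 / c) := by
    calc ((M : ℝ) + 1) ^ (1 / c) ≤ (2 * (M : ℝ)) ^ (1 / c) :=
          Real.rpow_le_rpow (by positivity) (by linarith) (by positivity)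
      _ = 2 ^ (1 / c) * (M : ℝ) ^ (1 / c) := Real.mul_rpow (by norm_num) hMpos.le
      _ ≤ 2 * (M : ℝ) ^ (1 / c) := by
          apply mul_le_mul_of_nonneg_right _ (by positivity)
          calc (2 : ℝ) ^ (1 / c) ≤ 2 ^ (1 : ℝ) := by
                apply Real.rpow_le_rpow_of_exponent_le (by norm_num)
                linarith
            _ = 2 := Real.rpow_one _
  have h4 : 4 * c * C ≤ (M : ℝ) ^ (1 / c) * δ := by rwa [div_le_iff₀ hδ] at h1
  have h5 : (M : ℝ) ^ (1 / c) * (M : ℝ) ^ (1 - 1 / c) = M := by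
    rw [← Real.rpow_add hMpos]
    simp
  have hgM : 0 ≤ g M := by rw [hg]; positivity
  calc 2 * (δ / (8 * c) * ((M : ℝ) + 1) ^ (1 / c) + C) * g M ≤
      2 * (δ / (8 * c) * (2 * (M : ℝ) ^ (1 / c)) + (M : ℝ) ^ (1 / c) * δ / (4 * c)) * g M := by
        apply mul_le_mul_of_nonneg_right _ hgM
        apply mul_le_mul_of_nonneg_left _ (by norm_num)
        apply add_le_add
        · exact mul_le_mul_of_nonneg_left h3 (by positivity)
        · rw [le_div_iff₀ (by positivity)]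
          linarith
    _ = δ * ((M : ℝ) ^ (1 / c) * (M : ℝ) ^ (1 - 1 / c)) := by
        rw [hg]
        simp only
        field_simp
        ring
    _ = δ * M := by rw [h5]

/-- **Local statistics along the sequence and over all integers.** -/
theorem equiv {k : ℕ} {α c κ : ℝ} (hα : 0 < α) (hc : 1 < c) (hκ : 0 < κ)
    (hS : SampR k (ms α c) c (α ^ (-(1 / c))) κ) {Φ : (Fin k → ℝ) → ℝ} (hΦ : UniformContinuous Φ)
    {Bd : ℝ} (hB : ∀ z, |Φ z| ≤ Bd)
    {θ : Fin k → ℝ} (hθ : ∀ l, 0 < θ l ∧ θ l ≤ 1) (L : ℝ) :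
    Tendsto (fun N : ℕ => (∑ n ∈ Icc 1 N, Fx Φ θ (xs α c n)) / N) atTop (𝓝 L) ↔
      Tendsto (fun M : ℕ => (∑ m ∈ Icc 1 M, Fx Φ θ (m : ℝ)) / M) atTop (𝓝 L) := by
  rw [tend_iff, tend_iff]
  constructor
  · intro h δ hδ
    exact to_integers hα hc hκ hS hΦ hB hθ h δ hδ
  · intro h δ hδ
    have hc0 : 0 < c := by linarith
    obtain ⟨N1, h1⟩ := law k α c κ hα hc hκ hS Φ hΦ Bd hB θ hθ (δ / 2) (by positivity)
    have h2 : ∃ M0 : ℕ, ∀ M : ℕ, M0 ≤ M → |(1 / (M : ℝ)) * ∑ m ∈ Icc 1 M, Fx Φ θ (m : ℝ) - L| ≤ δ / 4 := by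
      obtain ⟨M0, hM0⟩ := h (δ / 4) (by positivity)
      refine ⟨max M0 1, fun M hM => ?_⟩
      have hM1 : (0 : ℝ) < M := by
        have : 1 ≤ M := (le_max_right _ _).trans hM
        exact_mod_cast this
      have h3 := hM0 M ((le_max_left _ _).trans hM)
      have e : (1 / (M : ℝ)) * ∑ m ∈ Icc 1 M, Fx Φ θ (m : ℝ) - L =
          (∑ m ∈ Icc 1 M, Fx Φ θ (m : ℝ) - L * M) / M := by field_simp
      rw [e, abs_div, abs_of_pos hM1, div_le_iff₀ hM1]
      exact h3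
    obtain ⟨N2, h3⟩ := Pool.Agent.H706R2.PS.s3 c α L (δ / 4) (fun m : ℕ => Fx Φ θ (m : ℝ)) hc hα (by positivity)
      ⟨Bd, fun m => hB _⟩ h2
    refine ⟨max (max N1 N2) 1, fun N hN => ?_⟩
    have hN1 : (0 : ℝ) < N := by
      have : 1 ≤ N := (le_max_right _ _).trans hN
      exact_mod_cast this
    have g1 := h1 N (((le_max_left _ _).trans (le_max_left _ _)).trans hN)
    have g2 := h3 N (((le_max_right _ _).trans (le_max_left _ _)).trans hN)
    have e : (1 / (N : ℝ)) * ∑ m ∈ Icc 1 ⌊α * (N : ℝ) ^ c⌋₊,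
        (1 / c) * α ^ (-(1 / c)) * (m : ℝ) ^ (1 / c - 1) * Fx Φ θ (m : ℝ) =
        (1 / (N : ℝ)) * (α ^ (-(1 / c)) * ∑ t ∈ Ioc 0 (ms α c N), wt c t * Fx Φ θ (t : ℝ)) := by
      congr 1
      rw [Ioc_zero, Finset.mul_sum]
      apply Finset.sum_congr rfl
      intro m _
      unfold wt
      ring
    rw [e] at g2
    set V := α ^ (-(1 / c)) * ∑ t ∈ Ioc 0 (ms α c N), wt c t * Fx Φ θ (t : ℝ) with hV
    have g3 : |V - L * N| ≤ 2 * (δ / 4) * N := by
      have e2 : V - L * N = ((1 / (N : ℝ)) * V - L) * N := by field_simp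
      rw [e2, abs_mul, abs_of_pos hN1]
      exact mul_le_mul_of_nonneg_right g2 hN1.le
    have t1 := abs_add_le (∑ n ∈ Icc 1 N, Fx Φ θ (xs α c n) - V) (V - L * N)
    rw [sub_add_sub_cancel] at t1
    linarith

end Pool.Agent.Y854.ST
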