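import Pool.Agent.Y854.ST.Block

/-! All scales. -/

set_option autoImplicit false

open Finset Filter

namespace Pool.Agent.Y854.ST

open Pool.Agent.Y854.PS

/-- the function of the rounded densities, the scale being that of the integer -/
noncomputable def Pw {k : ℕ} (Φ : (Fin k → ℝ) → ℝ) (θ : Fin k → ℝ) (m : ℕ) : ℝ := Pt Φ θ (sc m) m

lemma Pw_le {k : ℕ} {Φ : (Fin k → ℝ) → ℝ} {Bd : ℝ} (hB : ∀ z, |Φ z| ≤ Bd) (θ : Fin k → ℝ) (m : ℕ) :
    |Pw Φ θ m| ≤ Bd := hB _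

/-- all scales -/
theorem totalR (k : ℕ) (α c a κ : ℝ) (hα : 0 < α) (hc : 1 < c) (ha : 0 < a) (hκ : 0 < κ)
    (hS : SampR k (ms α c) c a κ) (Φ : (Fin k → ℝ) → ℝ) (Bd : ℝ) (hB : ∀ z, |Φ z| ≤ Bd)
    (θ : Fin k → ℝ) (hθ : ∀ l, 0 < θ l ∧ θ l ≤ 1) (δ : ℝ) (hδ : 0 < δ) : ∃ N0 : ℕ, ∀ N : ℕ, N0 ≤ N →
      |∑ n ∈ Icc 1 N, Pw Φ θ (ms α c n) - a * ∑ t ∈ Ioc 0 (ms α c N), wt c t * Pw Φ θ t| ≤ δ * N := by
  classical
  have hc0 : 0 < c := by linarith
  have hBd : 0 ≤ Bd := (abs_nonneg _).trans (hB (fun _ => 0))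
  obtain ⟨Cb, hCb, hblock⟩ := block_card hα hc
  obtain ⟨Cg, hCg, hgeo⟩ := geo hc
  set Ca : ℝ := Cg * α ^ (1 / c) with hCa
  have hCapos : 0 < Ca := mul_pos hCg (Real.rpow_pos_of_pos hα _)
  set δ1 : ℝ := δ / (2 * Ca) with hδ1
  have hδ1pos : 0 < δ1 := by positivity
  obtain ⟨i1, hscale⟩ := scaleR k α c a κ hα hc hκ hS Φ Bd hB θ hθ δ1 hδ1pos
  obtain ⟨i2, hstrict⟩ := ms_strict hα hc
  set i0 : ℕ := max (max i1 i2) 1 with hi0
  have hi01 : i1 ≤ i0 := (le_max_left _ _).trans (le_max_left _ _)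
  have hi02 : i2 ≤ i0 := (le_max_right _ _).trans (le_max_left _ _)
  have hi03 : 1 ≤ i0 := le_max_right _ _
  set W0 : ℝ := a * ∑ t ∈ Ioc 0 (2 ^ i0), wt c t with hW0
  have hW00 : 0 ≤ W0 := mul_nonneg ha.le (Finset.sum_nonneg fun t _ => wt_nonneg hc t)
  have hms : Tendsto (fun n : ℕ => xs α c n) atTop atTop := by
    have h1 : Tendsto (fun n : ℕ => (n : ℝ) ^ c) atTop atTop :=
      (tendsto_rpow_atTop hc0).comp tendsto_natCast_atTop_atTop
    exact h1.const_mul_atTop hα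
  obtain ⟨N2, hN2⟩ := (hms.eventually (eventually_ge_atTop ((2 : ℝ) ^ i0 + 1))).exists_forall_of_atTop
  obtain ⟨N1, hN1⟩ := exists_nat_ge ((Cb * ((2 : ℝ) ^ i0) ^ (1 / c) * Bd + Bd * W0) / (δ / 2))
  refine ⟨max (max N1 N2) 1, fun N hN => ?_⟩
  have hNN1 : N1 ≤ N := ((le_max_left _ _).trans (le_max_left _ _)).trans hN
  have hNN2 : N2 ≤ N := ((le_max_right _ _).trans (le_max_left _ _)).trans hN
  have hN1' : 1 ≤ N := (le_max_right _ _).trans hN
  have hNpos : (0 : ℝ) < N := by exact_mod_cast hN1'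
  have hmsN : 2 ^ i0 < ms α c N := by
    have h1 := hN2 N hNN2
    have h2 : 2 ^ i0 + 1 ≤ ms α c N := by
      apply Nat.le_floor
      push_cast
      exact h1
    omega
  have h2i0 : 2 ≤ 2 ^ i0 := by
    calc 2 = 2 ^ 1 := by norm_num
      _ ≤ 2 ^ i0 := Nat.pow_le_pow_right (by norm_num) (by omega)
  set F : ℕ → ℝ := fun n => Pw Φ θ (ms α c n) with hF
  set g : ℕ → ℝ := fun t => wt c t * Pw Φ θ t with hg
  -- splitting
  rw [← Finset.sum_filter_add_sum_filter_not (Icc 1 N) (fun n => 2 ^ i0 < ms α c n) F]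
  have hsplit : ∑ t ∈ Ioc 0 (ms α c N), g t = ∑ t ∈ Ioc 0 (2 ^ i0), g t + ∑ t ∈ Ioc (2 ^ i0) (ms α c N), g t :=
    (Finset.sum_Ioc_consecutive g (Nat.zero_le _) hmsN.le).symm
  rw [hsplit]
  set Big := (Icc 1 N).filter (fun n => 2 ^ i0 < ms α c n) with hBig
  set Sm := (Icc 1 N).filter (fun n => ¬ 2 ^ i0 < ms α c n) with hSm
  have hsmall : |∑ n ∈ Sm, F n| ≤ Cb * ((2 : ℝ) ^ i0) ^ (1 / c) * Bd := by
    have h2 : (Sm.card : ℝ) ≤ Cb * ((2 : ℝ) ^ i0) ^ (1 / c) := by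
      apply hblock
      intro n hn
      rw [hSm, mem_filter] at hn
      obtain ⟨hn1, hn2⟩ := hn
      rw [mem_Icc] at hn1
      push Not at hn2
      refine ⟨hn1.1, hn2.trans ?_⟩
      exact Nat.pow_le_pow_right (by norm_num) (by omega)
    calc |∑ n ∈ Sm, F n| ≤ ∑ n ∈ Sm, |F n| := Finset.abs_sum_le_sum_abs _ _
      _ ≤ ∑ n ∈ Sm, Bd := Finset.sum_le_sum fun n _ => Pw_le hB θ _
      _ = (Sm.card : ℝ) * Bd := by rw [sum_const, nsmul_eq_mul]
      _ ≤ Cb * ((2 : ℝ) ^ i0) ^ (1 / c) * Bd := mul_le_mul_of_nonneg_right h2 hBd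
  have hsmall2 : |a * ∑ t ∈ Ioc 0 (2 ^ i0), g t| ≤ Bd * W0 := by
    rw [abs_mul, abs_of_pos ha, hW0]
    have h1 : |∑ t ∈ Ioc 0 (2 ^ i0), g t| ≤ Bd * ∑ t ∈ Ioc 0 (2 ^ i0), wt c t := by
      rw [Finset.mul_sum]
      refine (Finset.abs_sum_le_sum_abs _ _).trans (Finset.sum_le_sum fun t _ => ?_)
      rw [hg]
      simp only
      rw [abs_mul, abs_of_nonneg (wt_nonneg hc t), mul_comm]
      exact mul_le_mul_of_nonneg_right (Pw_le hB θ _) (wt_nonneg hc t)
    calc a * |∑ t ∈ Ioc 0 (2 ^ i0), g t| ≤ a * (Bd * ∑ t ∈ Ioc 0 (2 ^ i0), wt c t) :=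
          mul_le_mul_of_nonneg_left h1 ha.le
      _ = _ := by ring
  -- the large ones
  set I : ℕ := sc (ms α c N) with hI
  have hmaps1 : ∀ n ∈ Big, sc (ms α c n) ∈ range (I + 1) := by
    intro n hn
    rw [hBig, mem_filter, mem_Icc] at hn
    rw [mem_range]
    have := sc_mono (ms_mono hα hc0.le hn.1.2)
    omega
  have hmaps2 : ∀ t ∈ Ioc (2 ^ i0) (ms α c N), sc t ∈ range (I + 1) := by
    intro t ht
    rw [mem_Ioc] at ht
    rw [mem_range]
    have := sc_mono ht.2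
    omega
  have hfib : ∀ i ∈ range (I + 1), |∑ n ∈ Big.filter (fun n => sc (ms α c n) = i), F n -
      a * ∑ t ∈ (Ioc (2 ^ i0) (ms α c N)).filter (fun t => sc t = i), g t| ≤
        δ1 * ((2 : ℝ) ^ i) ^ (1 / c) := by
    intro i hiI
    rw [mem_range] at hiI
    by_cases hii0 : i0 ≤ i
    · have h2i : 2 ^ i0 ≤ 2 ^ i := Nat.pow_le_pow_right (by norm_num) hii0
      have hIN : 2 ^ I < ms α c N := ((sc_iff (by omega)).mp hI.symm).1
      have hiN : 2 ^ i < ms α c N := lt_of_le_of_lt (Nat.pow_le_pow_right (by norm_num) (by omega)) hIN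
      set y : ℕ := min (2 ^ (i + 1)) (ms α c N) with hy
      have hy1 : 2 ^ i ≤ y := le_min (Nat.pow_le_pow_right (by norm_num) (by omega)) hiN.le
      have hy2 : y ≤ 2 ^ (i + 1) := min_le_left _ _
      have e2 : (Ioc (2 ^ i0) (ms α c N)).filter (fun t => sc t = i) = Ioc (2 ^ i) y := by
        ext t
        rw [mem_filter, mem_Ioc, mem_Ioc, hy, le_min_iff]
        constructor
        · rintro ⟨⟨h1, h2⟩, h3⟩
          rw [sc_iff (by omega)] at h3
          exact ⟨h3.1, h3.2, h2⟩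
        · rintro ⟨h1, h2, h3⟩
          refine ⟨⟨by omega, h3⟩, ?_⟩
          rw [sc_iff (by omega)]
          exact ⟨h1, h2⟩
      have e1 : ∀ n, n ∈ Big.filter (fun n => sc (ms α c n) = i) ↔ 1 ≤ n ∧ 2 ^ i < ms α c n ∧ ms α c n ≤ y := by
        intro n
        rw [mem_filter, hBig, mem_filter, mem_Icc, hy, le_min_iff]
        constructor
        · rintro ⟨⟨⟨h1, h2⟩, h3⟩, h4⟩
          rw [sc_iff (by omega)] at h4
          exact ⟨h1, h4.1, h4.2, ms_mono hα hc0.le h2⟩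
        · rintro ⟨h1, h2, h3, h4⟩
          have h5 : n ≤ N := by
            by_contra hcon
            push Not at hcon
            have h6 : 2 ^ i2 < ms α c N :=
              lt_of_le_of_lt (Nat.pow_le_pow_right (by norm_num) (hi02.trans hii0)) hiN
            have := hstrict N n h6 hcon
            omega
          refine ⟨⟨⟨h1, h5⟩, by omega⟩, ?_⟩
          rw [sc_iff (by omega)]
          exact ⟨h2, h3⟩
      have g1 : ∑ n ∈ Big.filter (fun n => sc (ms α c n) = i), F n =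
          ∑ n ∈ Big.filter (fun n => sc (ms α c n) = i), Pt Φ θ i (ms α c n) := by
        apply Finset.sum_congr rfl
        intro n hn
        rw [mem_filter] at hn
        rw [hF]
        simp only
        unfold Pw
        rw [hn.2]
      have g2 : ∑ t ∈ (Ioc (2 ^ i0) (ms α c N)).filter (fun t => sc t = i), g t =
          ∑ t ∈ Ioc (2 ^ i) y, wt c t * Pt Φ θ i t := by
        rw [← e2]
        apply Finset.sum_congr rfl
        intro t ht
        rw [mem_filter] at ht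
        rw [hg]
        simp only
        unfold Pw
        rw [ht.2]
      rw [g1, g2]
      exact hscale i (hi01.trans hii0) y hy1 hy2 _ e1
    · push Not at hii0
      have e1 : Big.filter (fun n => sc (ms α c n) = i) = ∅ := by
        apply Finset.eq_empty_of_forall_notMem
        intro n hn
        rw [mem_filter, hBig, mem_filter, mem_Icc] at hn
        obtain ⟨⟨-, h3⟩, h4⟩ := hn
        rw [sc_iff (by omega)] at h4
        have h5 : 2 ^ (i + 1) ≤ 2 ^ i0 := Nat.pow_le_pow_right (by norm_num) (by omega)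
        omega
      have e2 : (Ioc (2 ^ i0) (ms α c N)).filter (fun t => sc t = i) = ∅ := by
        apply Finset.eq_empty_of_forall_notMem
        intro t ht
        rw [mem_filter, mem_Ioc] at ht
        obtain ⟨⟨h3, -⟩, h4⟩ := ht
        rw [sc_iff (by omega)] at h4
        have h5 : 2 ^ (i + 1) ≤ 2 ^ i0 := Nat.pow_le_pow_right (by norm_num) (by omega)
        omega
      rw [e1, e2]
      simp only [sum_empty, mul_zero, sub_zero, abs_zero]
      positivity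
  have hbig : |∑ n ∈ Big, F n - a * ∑ t ∈ Ioc (2 ^ i0) (ms α c N), g t| ≤ (δ / 2) * N := by
    have e3 : ∑ n ∈ Big, F n - a * ∑ t ∈ Ioc (2 ^ i0) (ms α c N), g t =
        ∑ i ∈ range (I + 1), (∑ n ∈ Big.filter (fun n => sc (ms α c n) = i), F n -
          a * ∑ t ∈ (Ioc (2 ^ i0) (ms α c N)).filter (fun t => sc t = i), g t) := by
      rw [Finset.sum_sub_distrib, ← Finset.mul_sum, Finset.sum_fiberwise_of_maps_to hmaps1,
        Finset.sum_fiberwise_of_maps_to hmaps2]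
    rw [e3]
    refine (Finset.abs_sum_le_sum_abs _ _).trans ((Finset.sum_le_sum hfib).trans ?_)
    rw [← Finset.mul_sum]
    have h2 : ((2 : ℝ) ^ I) ^ (1 / c) ≤ α ^ (1 / c) * N := by
      have h3 : 2 ^ I < ms α c N := ((sc_iff (by omega)).mp hI.symm).1
      have h4 : (2 : ℝ) ^ I ≤ xs α c N := by
        have h5 : (2 : ℝ) ^ I < ms α c N := by exact_mod_cast h3
        have h6 : (ms α c N : ℝ) ≤ xs α c N := Nat.floor_le (xs_nonneg hα N)
        linarith
      calc ((2 : ℝ) ^ I) ^ (1 / c) ≤ (xs α c N) ^ (1 / c) :=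
            Real.rpow_le_rpow (by positivity) h4 (by positivity)
        _ = α ^ (1 / c) * N := by
            unfold xs
            rw [Real.mul_rpow hα.le (by positivity), ← Real.rpow_mul hNpos.le,
              mul_one_div_cancel hc0.ne', Real.rpow_one]
    calc δ1 * ∑ i ∈ range (I + 1), ((2 : ℝ) ^ i) ^ (1 / c) ≤ δ1 * (Cg * (α ^ (1 / c) * N)) := by
          apply mul_le_mul_of_nonneg_left _ hδ1pos.le
          exact (hgeo I).trans (mul_le_mul_of_nonneg_left h2 hCg.le)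
      _ = (δ1 * Ca) * N := by rw [hCa]; ring
      _ = (δ / 2) * N := by
          congr 1
          rw [hδ1]
          field_simp
  have hconst : Cb * ((2 : ℝ) ^ i0) ^ (1 / c) * Bd + Bd * W0 ≤ (δ / 2) * N := by
    have h3 : (Cb * ((2 : ℝ) ^ i0) ^ (1 / c) * Bd + Bd * W0) / (δ / 2) ≤ N :=
      hN1.trans (by exact_mod_cast hNN1)
    rw [div_le_iff₀ (by positivity)] at h3
    linarith
  have e : ∑ n ∈ Big, F n + ∑ n ∈ Sm, F n -
      a * (∑ t ∈ Ioc 0 (2 ^ i0), g t + ∑ t ∈ Ioc (2 ^ i0) (ms α c N), g t) =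
      (∑ n ∈ Big, F n - a * ∑ t ∈ Ioc (2 ^ i0) (ms α c N), g t) + (∑ n ∈ Sm, F n -
        a * ∑ t ∈ Ioc 0 (2 ^ i0), g t) := by ring
  rw [e]
  have t1 := abs_add_le (∑ n ∈ Big, F n - a * ∑ t ∈ Ioc (2 ^ i0) (ms α c N), g t) (∑ n ∈ Sm, F n -
        a * ∑ t ∈ Ioc 0 (2 ^ i0), g t)
  have t2 := abs_sub (∑ n ∈ Sm, F n) (a * ∑ t ∈ Ioc 0 (2 ^ i0), g t)
  linarith

end Pool.Agent.Y854.ST
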